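import Pool.Agent.Lib_MP_f6e057_co.Rooted

/-!
# The level lemma

A tree `T` rooted at `v`, and a vertex `x` with levels: a vertex `y` of level `i` is to play a role
of depth `i`; it has a set `E y` of demanded roles and, in the level `i + 1`, at least as many
neighbours as demanded roles of depth `i + 1`. Then there is a closed structure with `x` as the
root.
-/

set_option autoImplicit false
set_option linter.unusedSectionVars false

namespace Pool.Agent.Lib_MP_f6e057_co.GL

open Finset Exch

section Level
variable {W : Type*} [Fintype W] [DecidableEq W] {T : SimpleGraph W} {r : W} (Rt : Rooted T r)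
variable {V : Type*} [Fintype V] [DecidableEq V] (G : SimpleGraph V) [DecidableRel G.Adj]
variable (lev : V → ℕ) (E : V → Finset W)

/-- number of roles of `A` of the next depth which `y` demands -/
def dmd (A : Finset W) (y : V) : ℕ := ((E y ∩ A).filter fun a => Rt.dep a = lev y + 1).card

/-- number of neighbours of `y` in `M` of the next level -/
def avl (M : Finset V) (y : V) : ℕ := ((G.neighborFinset y ∩ M).filter fun u => lev u = lev y + 1).card

variable {Rt G lev E}

theorem avl_mono {M M' : Finset V} (h : M ⊆ M') (y : V) : avl G lev M y ≤ avl G lev M' y := by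
  apply card_le_card
  intro u hu
  simp only [mem_filter, mem_inter] at hu ⊢
  exact ⟨⟨hu.1.1, h hu.1.2⟩, hu.2⟩

theorem avl_insert_le {M : Finset V} (u y : V) : avl G lev (insert u M) y ≤ avl G lev M y + 1 := by
  have : ((G.neighborFinset y ∩ insert u M).filter fun w => lev w = lev y + 1) ⊆
      insert u ((G.neighborFinset y ∩ M).filter fun w => lev w = lev y + 1) := by
    intro w hw
    simp only [mem_filter, mem_inter, mem_insert] at hw ⊢
    tauto
  exact (card_le_card this).trans (card_insert_le _ _)

theorem avl_insert_eq {M : Finset V} {u y : V} (h : lev u ≠ lev y + 1 ∨ ¬ G.Adj y u) :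
    avl G lev (insert u M) y = avl G lev M y := by
  unfold avl
  congr 1
  ext w
  simp only [mem_filter, mem_inter, mem_insert, SimpleGraph.mem_neighborFinset]
  constructor
  · rintro ⟨⟨h1, h2⟩, h3⟩
    rcases h2 with rfl | h2
    · rcases h with h | h
      · exact absurd h3 h
      · exact absurd h1 h
    · exact ⟨⟨h1, h2⟩, h3⟩
  · rintro ⟨⟨h1, h2⟩, h3⟩
    exact ⟨⟨h1, Or.inr h2⟩, h3⟩

theorem avl_sdiff {M P : Finset V} (h : P ⊆ M) (y : V) :
    avl G lev (M \ P) y + avl G lev P y = avl G lev M y := by
  unfold avl
  rw [← card_union_of_disjoint]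
  · congr 1
    ext w
    simp only [mem_filter, mem_inter, mem_union, mem_sdiff]
    constructor
    · rintro (⟨⟨h1, h2⟩, h3⟩ | ⟨⟨h1, h2⟩, h3⟩)
      · exact ⟨⟨h1, h2.1⟩, h3⟩
      · exact ⟨⟨h1, h h2⟩, h3⟩
    · rintro ⟨⟨h1, h2⟩, h3⟩
      by_cases hw : w ∈ P
      · exact Or.inr ⟨⟨h1, hw⟩, h3⟩
      · exact Or.inl ⟨⟨h1, h2, hw⟩, h3⟩
  · rw [disjoint_left]
    intro w hw
    simp only [mem_filter, mem_inter, mem_sdiff] at hw ⊢
    tauto

theorem dmd_sdiff {A B : Finset W} (h : B ⊆ A) (y : V) :
    dmd Rt lev E (A \ B) y + dmd Rt lev E B y = dmd Rt lev E A y := by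
  unfold dmd
  rw [← card_union_of_disjoint]
  · congr 1
    ext w
    simp only [mem_filter, mem_inter, mem_union, mem_sdiff]
    constructor
    · rintro (⟨⟨h1, h2⟩, h3⟩ | ⟨⟨h1, h2⟩, h3⟩)
      · exact ⟨⟨h1, h2.1⟩, h3⟩
      · exact ⟨⟨h1, h h2⟩, h3⟩
    · rintro ⟨⟨h1, h2⟩, h3⟩
      by_cases hw : w ∈ B
      · exact Or.inr ⟨⟨h1, hw⟩, h3⟩
      · exact Or.inl ⟨⟨h1, h2, hw⟩, h3⟩
  · rw [disjoint_left]
    intro w hw
    simp only [mem_filter, mem_inter, mem_sdiff] at hw ⊢
    tauto

/-- the cut: a set `P` with exactly one vertex `z` of level `l` -/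
theorem exists_cut (M : Finset V) (l : ℕ) (e : V → ℕ) (hlev : ∀ y ∈ M, l ≤ lev y)
    (hne : ∃ y ∈ M, lev y = l) (hM : ∀ y ∈ M, e y ≤ avl G lev M y) :
    ∃ (P : Finset V) (z : V), z ∉ P ∧ z ∈ M ∧ lev z = l ∧ P ⊆ M ∧ (∀ y ∈ P, l < lev y) ∧
      (∀ y ∈ insert z P, e y ≤ avl G lev (insert z P) y) ∧
      ∀ y ∈ M, y ∉ insert z P → avl G lev (insert z P) y ≤ e y := by
  classical
  let Val : Finset V → Prop := fun P => (∀ y ∈ P, e y ≤ avl G lev P y) ∧
    ∀ y ∈ M, y ∉ P → avl G lev P y ≤ e y
  obtain ⟨P, hP, hPmax⟩ := exists_max_image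
    (M.powerset.filter fun P => Val P ∧ ∀ y ∈ P, l < lev y) card ⟨∅, by
      simp only [mem_filter, mem_powerset, empty_subset, true_and]
      refine ⟨⟨fun y hy => absurd hy (notMem_empty y), ?_⟩, fun y hy => absurd hy (notMem_empty y)⟩
      intro y _ _
      simp [avl]⟩
  simp only [mem_filter, mem_powerset] at hP hPmax
  obtain ⟨hPM, hPV, hPl⟩ := hP
  -- addable vertices
  let Add : Finset V := (M \ P).filter fun y => avl G lev P y = e y
  have hAdd : Add.Nonempty := by
    obtain ⟨y0, hy0, hy0l⟩ := hne
    have h0 : y0 ∈ M \ P := by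
      rw [mem_sdiff]
      refine ⟨hy0, fun h => ?_⟩
      have := hPl y0 h
      omega
    obtain ⟨y, hy, hymax⟩ := exists_max_image (M \ P) lev ⟨y0, h0⟩
    refine ⟨y, ?_⟩
    have hyM := (mem_sdiff.1 hy).1
    have hyP := (mem_sdiff.1 hy).2
    rw [mem_filter]
    refine ⟨hy, le_antisymm (hPV.2 y hyM hyP) ?_⟩
    refine (hM y hyM).trans ?_
    apply card_le_card
    intro u hu
    simp only [mem_filter, mem_inter] at hu ⊢
    refine ⟨⟨hu.1.1, ?_⟩, hu.2⟩
    by_contra huP
    have := hymax u (mem_sdiff.2 ⟨hu.1.2, huP⟩)
    omega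
  obtain ⟨z, hz, hzmin⟩ := exists_min_image Add lev hAdd
  rw [mem_filter, mem_sdiff] at hz
  obtain ⟨⟨hzM, hzP⟩, hze⟩ := hz
  have hval : Val (insert z P) := by
    constructor
    · intro y hy
      rcases mem_insert.1 hy with rfl | hy
      · rw [← hze]
        exact avl_mono (subset_insert _ _) _
      · exact (hPV.1 y hy).trans (avl_mono (subset_insert _ _) _)
    · intro y hyM hyP
      rw [mem_insert, not_or] at hyP
      by_cases h : lev z = lev y + 1
      · have h1 := hPV.2 y hyM hyP.2
        have h2 : avl G lev P y ≠ e y := by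
          intro h2
          have := hzmin y (mem_filter.2 ⟨mem_sdiff.2 ⟨hyM, hyP.2⟩, h2⟩)
          omega
        have h3 := avl_insert_le (G := G) (lev := lev) (M := P) z y
        omega
      · rw [avl_insert_eq (Or.inl h)]
        exact hPV.2 y hyM hyP.2
  have hzl : lev z = l := by
    by_contra hne'
    have hlz : l < lev z := lt_of_le_of_ne (hlev z hzM) (Ne.symm hne')
    have := hPmax (insert z P) ⟨insert_subset hzM hPM, hval, by
      intro y hy
      rcases mem_insert.1 hy with rfl | hy
      · exact hlz
      · exact hPl y hy⟩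
    rw [card_insert_of_notMem hzP] at this
    omega
  exact ⟨P, z, hzP, hzM, hzl, hPM, hPl, hval.1, hval.2⟩

/-- **Level lemma.** -/
theorem level_lemma : ∀ (n : ℕ) (A : Finset W) (s : W) (x : V) (M : Finset V), A.card ≤ n →
    s ∈ A → A ⊆ Desc Rt s → (∀ a ∈ A, a ≠ s → Rt.par a ∈ A) → lev x = Rt.dep s → x ∉ M →
    (∀ y ∈ M, lev x < lev y) →
    (∀ y ∈ insert x M, dmd Rt lev E A y ≤ avl G lev M y) →
    ∃ (S : Finset W) (ψ : W → V), S ⊆ A ∧ s ∈ S ∧ (∀ a ∈ S, a ≠ s → Rt.par a ∈ S) ∧
      (∀ a ∈ S, ∀ b ∈ S, ψ a = ψ b → a = b) ∧ ψ s = x ∧ (∀ a ∈ S, a ≠ s → ψ a ∈ M) ∧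
      (∀ a ∈ S, a ≠ s → G.Adj (ψ (Rt.par a)) (ψ a)) ∧
      ∀ a ∈ A, a ≠ s → Rt.par a ∈ S → a ∈ E (ψ (Rt.par a)) → a ∈ S := by
  intro n
  induction n with
  | zero =>
    intro A s x M hn hs
    have : A = ∅ := card_eq_zero.1 (by omega)
    rw [this] at hs
    exact absurd hs (notMem_empty s)
  | succ n ih =>
    intro A s x M hn hs hAD hpar hlx hxM hlev hdem
    by_cases hall : ∀ c ∈ A, c ≠ s → Rt.par c = s → c ∉ E x
    · refine ⟨{s}, fun _ => x, singleton_subset_iff.2 hs, mem_singleton_self s, ?_, ?_, rfl, ?_, ?_, ?_⟩
      · intro a ha hne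
        exact absurd (mem_singleton.1 ha) hne
      · intro a ha b hb _
        rw [mem_singleton.1 ha, mem_singleton.1 hb]
      · intro a ha hne
        exact absurd (mem_singleton.1 ha) hne
      · intro a ha hne
        exact absurd (mem_singleton.1 ha) hne
      · intro a ha hne hpa hE
        exact absurd hE (hall a ha hne (mem_singleton.1 hpa))
    · push Not at hall
      obtain ⟨c, hcA, hcs, hcp, hcE⟩ := hall
      have hcr : c ≠ r := by
        rintro rfl
        exact hcs (eq_root_of_root_mem Rt (hAD hcA)).symm
      have hdc : Rt.dep c = Rt.dep s + 1 := by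
        have := Rt.dep_par c hcr
        rw [hcp] at this
        omega
      have hcD : c ∈ Desc Rt s := hAD hcA
      have hsc : s ∉ Desc Rt c := by
        rw [← hcp]
        exact par_notMem Rt hcr
      -- the two parts of the tree
      let B := A ∩ Desc Rt c
      have hBA : B ⊆ A := inter_subset_left
      have hcB : c ∈ B := mem_inter.2 ⟨hcA, self_mem Rt c⟩
      have hsB : s ∉ B := fun h => hsc (mem_inter.1 h).2
      -- level one
      let M1 := M.filter fun y => lev y = Rt.dep c → G.Adj x y
      have hM1M : M1 ⊆ M := filter_subset _ _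
      have havM1 : ∀ y ∈ insert x M, avl G lev M1 y = avl G lev M y := by
        intro y hy
        unfold avl
        congr 1
        ext u
        simp only [mem_filter, mem_inter, SimpleGraph.mem_neighborFinset, M1]
        constructor
        · rintro ⟨⟨h1, h2, -⟩, h3⟩
          exact ⟨⟨h1, h2⟩, h3⟩
        · rintro ⟨⟨h1, h2⟩, h3⟩
          refine ⟨⟨h1, h2, ?_⟩, h3⟩
          intro h4
          rcases mem_insert.1 hy with rfl | hy
          · exact h1
          · have := hlev y hy
            omega
      have hdemx := hdem x (mem_insert_self _ _)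
      have hcd : c ∈ (E x ∩ A).filter fun a => Rt.dep a = lev x + 1 := by
        rw [mem_filter, mem_inter]
        exact ⟨⟨hcE, hcA⟩, by omega⟩
      have hne : ∃ y ∈ M1, lev y = Rt.dep c := by
        have h1 : 0 < dmd Rt lev E A x := card_pos.2 ⟨c, hcd⟩
        have h2 : 0 < avl G lev M x := lt_of_lt_of_le h1 hdemx
        obtain ⟨y, hy⟩ := card_pos.1 h2
        simp only [mem_filter, mem_inter, SimpleGraph.mem_neighborFinset] at hy
        refine ⟨y, ?_, by omega⟩
        simp only [M1, mem_filter]
        exact ⟨hy.1.2, fun _ => hy.1.1⟩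
      obtain ⟨P, z, hzP, hzM, hzl, hPM, hPl, hv1, hv2⟩ := exists_cut (G := G) (lev := lev) M1
        (Rt.dep c) (dmd Rt lev E B)
        (by
          intro y hy
          have := hlev y (hM1M hy)
          omega) hne
        (by
          intro y hy
          rw [havM1 y (mem_insert_of_mem (hM1M hy))]
          refine le_trans ?_ (hdem y (mem_insert_of_mem (hM1M hy)))
          apply card_le_card
          intro a ha
          simp only [mem_filter, mem_inter] at ha ⊢
          exact ⟨⟨ha.1.1, hBA ha.1.2⟩, ha.2⟩)
      have hxz : G.Adj x z := by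
        have := hzM
        simp only [M1, mem_filter] at this
        exact this.2 hzl
      have hxM1 : x ∉ M1 := fun h => hxM (hM1M h)
      have hxP : x ∉ insert z P := fun h => hxM1 ((insert_subset hzM hPM) h)
      have hAB : (A \ B).card < A.card := by
        apply card_lt_card
        refine ⟨sdiff_subset, fun h => ?_⟩
        exact (mem_sdiff.1 (h hcA)).2 hcB
      have hBc : B.card < A.card := by
        apply card_lt_card
        exact ⟨hBA, fun h => hsB (h hs)⟩
      have hPne : ∀ y ∈ insert z P, avl G lev (insert z P) y = avl G lev P y := by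
        intro y hy
        apply avl_insert_eq
        left
        rcases mem_insert.1 hy with rfl | hy
        · omega
        · have := hPl y hy
          omega
      -- the branch of `c`
      obtain ⟨S1, ψ1, h11, h12, h13, h14, h15, h16, h17, h18⟩ := ih B c z P (by omega) hcB
        (fun a ha => (mem_inter.1 ha).2)
        (by
          intro a ha hac
          have ha' := mem_inter.1 ha
          refine mem_inter.2 ⟨hpar a ha'.1 ?_, par_mem Rt ha'.2 hac⟩
          rintro rfl
          exact hsc ha'.2)
        hzl hzP
        (by intro y hy; have := hPl y hy; omega)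
        (by
          intro y hy
          rw [← hPne y hy]
          exact hv1 y hy)
      -- the rest
      obtain ⟨S2, ψ2, h21, h22, h23, h24, h25, h26, h27, h28⟩ := ih (A \ B) s x (M1 \ insert z P)
        (by omega) (mem_sdiff.2 ⟨hs, hsB⟩) (sdiff_subset.trans hAD)
        (by
          intro a ha has
          have ha' := mem_sdiff.1 ha
          refine mem_sdiff.2 ⟨hpar a ha'.1 has, fun h => ?_⟩
          exact ha'.2 (mem_inter.2 ⟨ha'.1, child_mem Rt (mem_inter.1 h).2⟩))
        hlx (fun h => hxM1 (mem_sdiff.1 h).1)
        (by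
          intro y hy
          exact hlev y (hM1M (mem_sdiff.1 hy).1))
        (by
          intro y hy
          have h1 := avl_sdiff (G := G) (lev := lev) (insert_subset hzM hPM) y
          have h2 := dmd_sdiff (Rt := Rt) (lev := lev) (E := E) hBA y
          rcases mem_insert.1 hy with rfl | hy
          · have h3 := havM1 y (mem_insert_self _ _)
            -- `x` has demand one in the branch and one neighbour in the cut
            have h4 : dmd Rt lev E B y = 1 := by
              unfold dmd
              rw [card_eq_one]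
              refine ⟨c, ?_⟩
              ext a
              simp only [mem_filter, mem_inter, mem_singleton, B]
              constructor
              · rintro ⟨⟨_, _, ha⟩, hda⟩
                by_contra hac
                have := dep_lt Rt ha hac
                omega
              · rintro rfl
                exact ⟨⟨hcE, hcA, self_mem Rt a⟩, by omega⟩
            have h5 : avl G lev (insert z P) y = 1 := by
              unfold avl
              rw [card_eq_one]
              refine ⟨z, ?_⟩
              ext u
              simp only [mem_filter, mem_inter, mem_singleton, mem_insert,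
                SimpleGraph.mem_neighborFinset]
              constructor
              · rintro ⟨⟨_, hu⟩, hlu⟩
                rcases hu with hu | hu
                · exact hu
                · have := hPl u hu
                  omega
              · rintro rfl
                exact ⟨⟨hxz, Or.inl rfl⟩, by omega⟩
            omega
          · have hy' := mem_sdiff.1 hy
            have h3 := havM1 y (mem_insert_of_mem (hM1M hy'.1))
            have h4 := hv2 y hy'.1 hy'.2
            have h5 := hdem y (mem_insert_of_mem (hM1M hy'.1))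
            omega)
      -- the union
      have hS1 : ∀ a, a ∈ S1 → a ∈ B := fun a ha => h11 ha
      have hS2 : ∀ a, a ∈ S2 → a ∉ B := fun a ha => (mem_sdiff.1 (h21 ha)).2
      let ψ : W → V := fun a => if a ∈ B then ψ1 a else ψ2 a
      have e1 : ∀ a, a ∈ B → ψ a = ψ1 a := fun a ha => if_pos ha
      have e2 : ∀ a, a ∉ B → ψ a = ψ2 a := fun a ha => if_neg ha
      have im1 : ∀ a ∈ S1, ψ1 a ∈ insert z P := by
        intro a ha
        by_cases hac : a = c
        · rw [hac, h15]; exact mem_insert_self _ _
        · exact mem_insert_of_mem (h16 a ha hac)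
      have im2 : ∀ a ∈ S2, ψ2 a ∉ insert z P := by
        intro a ha
        by_cases has : a = s
        · rw [has, h25]; exact hxP
        · exact (mem_sdiff.1 (h26 a ha has)).2
      have hparB : ∀ a ∈ A, a ∉ B → Rt.par a ∉ B := by
        intro a ha haB h
        exact haB (mem_inter.2 ⟨ha, child_mem Rt (mem_inter.1 h).2⟩)
      refine ⟨S1 ∪ S2, ψ, union_subset (h11.trans hBA) (h21.trans sdiff_subset),
        mem_union_right _ h22, ?_, ?_, ?_, ?_, ?_, ?_⟩
      · intro a ha has
        rcases mem_union.1 ha with ha | ha
        · by_cases hac : a = c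
          · rw [hac, hcp]; exact mem_union_right _ h22
          · exact mem_union_left _ (h13 a ha hac)
        · exact mem_union_right _ (h23 a ha has)
      · intro a ha b hb hab
        rcases mem_union.1 ha with ha | ha <;> rcases mem_union.1 hb with hb | hb
        · rw [e1 a (hS1 a ha), e1 b (hS1 b hb)] at hab
          exact h14 a ha b hb hab
        · exfalso
          rw [e1 a (hS1 a ha), e2 b (hS2 b hb)] at hab
          exact im2 b hb (hab ▸ im1 a ha)
        · exfalso
          rw [e2 a (hS2 a ha), e1 b (hS1 b hb)] at hab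
          exact im2 a ha (hab ▸ im1 b hb)
        · rw [e2 a (hS2 a ha), e2 b (hS2 b hb)] at hab
          exact h24 a ha b hb hab
      · rw [e2 s hsB, h25]
      · intro a ha has
        rcases mem_union.1 ha with ha | ha
        · rw [e1 a (hS1 a ha)]
          exact hM1M ((insert_subset hzM hPM) (im1 a ha))
        · rw [e2 a (hS2 a ha)]
          exact hM1M (mem_sdiff.1 (h26 a ha has)).1
      · intro a ha has
        rcases mem_union.1 ha with ha | ha
        · by_cases hac : a = c
          · subst hac
            rw [hcp, e2 s hsB, e1 a hcB, h25, h15]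
            exact hxz
          · rw [e1 a (hS1 a ha), e1 _ (hS1 _ (h13 a ha hac))]
            exact h17 a ha hac
        · rw [e2 a (hS2 a ha), e2 _ (hS2 _ (h23 a ha has))]
          exact h27 a ha has
      · intro a ha has hpa hE
        by_cases haB : a ∈ B
        · by_cases hac : a = c
          · rw [hac]; exact mem_union_left _ h12
          · have hpB : Rt.par a ∈ B := by
              have ha' := mem_inter.1 haB
              exact mem_inter.2 ⟨hpar a ha has, par_mem Rt ha'.2 hac⟩
            have hpS : Rt.par a ∈ S1 := by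
              rcases mem_union.1 hpa with h | h
              · exact h
              · exact absurd hpB (hS2 _ h)
            rw [e1 _ hpB] at hE
            exact mem_union_left _ (h18 a haB hac hpS hE)
        · have hpB := hparB a ha haB
          have hpS : Rt.par a ∈ S2 := by
            rcases mem_union.1 hpa with h | h
            · exact absurd (hS1 _ h) hpB
            · exact h
          rw [e2 _ hpB] at hE
          exact mem_union_right _ (h28 a (mem_sdiff.2 ⟨ha, haB⟩) has hpS hE)

end Level

end Pool.Agent.Lib_MP_f6e057_co.GL
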