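import Pool.Agent.Lib_MP_f6e057_co.GL.Local
import Pool.Agent.Lib_MP_f6e057_co.Embed

/-!
# Minimal pairs, and the descent
-/

set_option autoImplicit false
set_option linter.unusedSectionVars false
set_option maxHeartbeats 400000

namespace Pool.Agent.Lib_MP_f6e057_co.GL

open Finset

section Pairs
variable {W : Type*} [Fintype W] [DecidableEq W] (T : SimpleGraph W)
variable {V : Type*} [Fintype V] [DecidableEq V] (G : SimpleGraph V) [DecidableRel G.Adj]

/-- `g` restricted to `I` is a partial copy of `T` -/
structure PC (I : Finset W) (g : W → V) : Prop where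
  inj : ∀ a ∈ I, ∀ b ∈ I, g a = g b → a = b
  adj : ∀ a ∈ I, ∀ b ∈ I, T.Adj a b → G.Adj (g a) (g b)

/-- deleting `Q` leaves no separation of order less than `k` -/
def NoSep (k : ℕ) (Q : Finset V) : Prop := ∀ D1 D2, ¬ Sep G k Q D1 D2

/-- images of proper partial copies whose deletion leaves no small separation -/
def InQ (k : ℕ) (Q : Finset V) : Prop :=
  ∃ (I : Finset W) (g : W → V), I ≠ univ ∧ PC T G I g ∧ Q = I.image g ∧ NoSep G k Q

/-- pairs -/
structure Pair (k : ℕ) (Q X : Finset V) : Prop where
  inQ : InQ T G k Q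
  ne : X.Nonempty
  disj : Disjoint X Q
  tight : (nbo G Q X).card = k
  fne : (far G Q X).Nonempty

variable {T G}

theorem NoSep.le {k : ℕ} {Q X : Finset V} (h : NoSep G k Q) (hne : X.Nonempty)
    (hd : Disjoint X Q) (hf : (far G Q X).Nonempty) : k ≤ (nbo G Q X).card := by
  by_contra hlt
  push Not at hlt
  have hsp := split_of (G := G) Q X hd
  apply h X (far G Q X)
  refine ⟨hne, hf, hsp.dZZ, hd, hsp.dZF', hsp.nadj, ?_⟩
  refine lt_of_le_of_lt (card_le_card ?_) hlt
  intro v hv
  simp only [mem_sdiff, mem_univ, true_and, mem_union, not_or] at hv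
  rcases hsp.cover v hv.2 with h | h | h
  · exact absurd h hv.1.1
  · exact h
  · exact absurd h hv.1.2

theorem far_mono {Q X Y : Finset V} (h : Y ⊆ X) : far G Q X ⊆ far G Q Y := by
  intro v hv
  rw [mem_far, mem_nb] at hv ⊢
  refine ⟨hv.1, fun h' => hv.2.1 (h h'), fun h' => hv.2.2 ⟨hv.2.1, ?_⟩⟩
  obtain ⟨-, u, hu, hadj⟩ := h'
  exact ⟨u, h hu, hadj⟩

theorem subset_far_far {Q X : Finset V} (hd : Disjoint X Q) : X ⊆ far G Q (far G Q X) := by
  have hsp := split_of (G := G) Q X hd
  intro v hv
  rw [mem_far, mem_nb]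
  refine ⟨disjoint_left.1 hd hv, disjoint_left.1 hsp.dZZ hv, ?_⟩
  rintro ⟨-, u, hu, hadj⟩
  exact hsp.nadj v hv u hu hadj.symm

theorem nbo_far_subset {Q X : Finset V} (hd : Disjoint X Q) :
    nbo G Q (far G Q X) ⊆ nbo G Q X := by
  have hsp := split_of (G := G) Q X hd
  intro v hv
  rw [mem_nbo] at hv
  obtain ⟨h1, h2, u, hu, hadj⟩ := hv
  rcases hsp.cover v h1 with h | h | h
  · exact absurd hadj.symm (hsp.nadj v h u hu)
  · exact h
  · exact absurd h h2

theorem Pair.sym {k : ℕ} {Q X : Finset V} (h : Pair T G k Q X) : Pair T G k Q (far G Q X) := by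
  have hsp := split_of (G := G) Q X h.disj
  have hff : (far G Q (far G Q X)).Nonempty := h.ne.mono (subset_far_far h.disj)
  refine ⟨h.inQ, h.fne, hsp.dZF', ?_, hff⟩
  apply le_antisymm
  · rw [← h.tight]
    exact card_le_card (nbo_far_subset h.disj)
  · obtain ⟨I, g, -, -, -, hno⟩ := h.inQ
    exact hno.le h.fne hsp.dZF' hff

/-- a minimum pair is a state -/
theorem Pair.st {k : ℕ} {Q X : Finset V} (h : Pair T G k Q X)
    (hmin : ∀ Q' X', Pair T G k Q' X' → Q.card + X.card ≤ Q'.card + X'.card) :
    St G k 0 Q X := by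
  have hno : NoSep G k Q := by
    obtain ⟨I, g, -, -, -, hno⟩ := h.inQ
    exact hno
  refine ⟨h.disj, h.ne, h.tight, ?_, ?_, ?_⟩
  · intro Y hY hYX
    have hd : Disjoint Y Q := disjoint_of_subset_left hYX.1 h.disj
    have hf : (far G Q Y).Nonempty := h.fne.mono (far_mono hYX.1)
    have h1 := hno.le hY hd hf
    rcases Nat.lt_or_ge k (nbo G Q Y).card with h2 | h2
    · exact h2
    · exfalso
      have h3 := hmin Q Y ⟨h.inQ, hY, hd, le_antisymm h2 h1, hf⟩
      have h4 := card_lt_card hYX
      omega
  · intro Y hY hYf hlt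
    exfalso
    have hd : Disjoint Y Q := by
      rw [disjoint_left]
      intro v hv
      exact (mem_far.1 (hYf hv)).1
    have hf : (far G Q Y).Nonempty :=
      h.ne.mono ((subset_far_far h.disj).trans (far_mono hYf))
    exact absurd (hno.le hY hd hf) (not_le.2 hlt)
  · have := hmin Q _ h.sym
    omega

/-- a bad copy gives a separation both sides of which are large -/
theorem bad_split {k mu : ℕ} (hmin : ∀ Q' X', Pair T G k Q' X' → mu ≤ Q'.card + X'.card)
    (h0 : NoSep G k ∅) {g : W → V} (hg : PC T G univ g) (hbad : ¬ NoSep G k (univ.image g)) :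
    ∃ Z N Z' : Finset V, Split G (univ.image g) Z N Z' ∧ N.card < k ∧
      mu + 1 ≤ Z.card + (univ.image g).card ∧ mu + 1 ≤ Z'.card + (univ.image g).card := by
  classical
  have hPC : ∀ I : Finset W, PC T G I g := fun I =>
    ⟨fun a _ b _ => hg.inj a (mem_univ _) b (mem_univ _),
      fun a _ b _ => hg.adj a (mem_univ _) b (mem_univ _)⟩
  have hinj : Function.Injective g := fun a b => hg.inj a (mem_univ _) b (mem_univ _)
  obtain ⟨I, hI, hImax⟩ := exists_max_image ((univ : Finset (Finset W)).filter
    fun I => NoSep G k (I.image g)) card ⟨∅, by simpa using h0⟩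
  simp only [mem_filter, mem_univ, true_and] at hI hImax
  have hIne : I ≠ univ := by
    rintro rfl
    exact hbad hI
  obtain ⟨w, hw⟩ : ∃ w, w ∉ I := by
    by_contra hall
    push Not at hall
    exact hIne (eq_univ_iff_forall.2 hall)
  have hsep : ¬ NoSep G k ((insert w I).image g) := by
    intro h
    have := hImax _ h
    rw [card_insert_of_notMem hw] at this
    omega
  unfold NoSep at hsep
  push Not at hsep
  obtain ⟨D1, D2, hD⟩ := hsep
  have hQ : I.image g ⊆ (insert w I).image g := image_subset_image (subset_insert w I)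
  have hinQ : InQ T G k (I.image g) := ⟨I, g, hIne, hPC I, rfl, hI⟩
  have hIc : (I.image g).card = I.card := card_image_of_injective _ hinj
  have hwc : ((insert w I).image g).card = I.card + 1 := by
    rw [card_image_of_injective _ hinj, card_insert_of_notMem hw]
  -- both sides give pairs
  have key : ∀ D1 D2 : Finset V, Sep G k ((insert w I).image g) D1 D2 →
      mu ≤ I.card + D1.card := by
    intro D1 D2 hD
    have hd : Disjoint D1 (I.image g) := disjoint_of_subset_right hQ hD.disj1
    have hf : (far G (I.image g) D1).Nonempty := by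
      refine hD.ne2.mono ?_
      intro v hv
      rw [mem_far, mem_nb]
      refine ⟨fun h => disjoint_left.1 hD.disj2 hv (hQ h),
        fun h => disjoint_left.1 hD.disj h hv, ?_⟩
      rintro ⟨-, u, hu, hadj⟩
      exact hD.nadj u hu v hv hadj
    have h1 := hI.le hD.ne1 hd hf
    have h2 : nbo G (I.image g) D1 ⊆ insert (g w)
        (univ \ (D1 ∪ D2 ∪ (insert w I).image g)) := by
      intro v hv
      rw [mem_nbo] at hv
      obtain ⟨h1, h2, u, hu, hadj⟩ := hv
      rw [mem_insert]
      by_cases hvw : v = g w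
      · exact Or.inl hvw
      · right
        simp only [mem_sdiff, mem_univ, true_and, mem_union, not_or]
        refine ⟨⟨h2, fun h => hD.nadj u hu v h hadj⟩, ?_⟩
        rw [image_insert, mem_insert, not_or]
        exact ⟨hvw, h1⟩
    have h3 := (card_le_card h2).trans (card_insert_le _ _)
    have h4 := hD.small
    have h5 := hmin _ _ (⟨hinQ, hD.ne1, hd, by omega, hf⟩ : Pair T G k (I.image g) D1)
    omega
  have k1 := key D1 D2 hD
  have hDs : Sep G k ((insert w I).image g) D2 D1 := by
    refine ⟨hD.ne2, hD.ne1, hD.disj.symm, hD.disj2, hD.disj1,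
      fun a ha b hb hab => hD.nadj b hb a ha hab.symm, ?_⟩
    rw [union_comm D2 D1]
    exact hD.small
  have k2 := key D2 D1 hDs
  set T' := univ.image g with hT'
  have hsubT : (insert w I).image g ⊆ T' := image_subset_image (subset_univ _)
  have hsz : ∀ D : Finset V, Disjoint D ((insert w I).image g) →
      D.card + I.card + 1 ≤ (D \ T').card + T'.card := by
    intro D hD
    have h1 := card_union_of_disjoint hD
    have h2 : D ∪ (insert w I).image g ⊆ (D \ T') ∪ T' := by
      intro v hv
      rcases mem_union.1 hv with h | h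
      · by_cases hvT : v ∈ T'
        · exact mem_union_right _ hvT
        · exact mem_union_left _ (mem_sdiff.2 ⟨h, hvT⟩)
      · exact mem_union_right _ (hsubT h)
    have h3 := (card_le_card h2).trans (card_union_le _ _)
    omega
  refine ⟨D1 \ T', univ \ (D1 ∪ D2 ∪ T'), D2 \ T', ?_, ?_, ?_, ?_⟩
  · refine ⟨?_, ?_, ?_, ?_, sdiff_disjoint, ?_, sdiff_disjoint, ?_⟩
    · intro v hv
      simp only [mem_sdiff, mem_univ, true_and, mem_union]
      tauto
    · rw [disjoint_left]; intro v; simp only [mem_sdiff, mem_univ, true_and, mem_union]; tauto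
    · exact disjoint_of_subset_left sdiff_subset (disjoint_of_subset_right sdiff_subset hD.disj)
    · rw [disjoint_left]; intro v; simp only [mem_sdiff, mem_univ, true_and, mem_union]; tauto
    · rw [disjoint_left]; intro v; simp only [mem_sdiff, mem_univ, true_and, mem_union]; tauto
    · intro u hu v hv
      exact hD.nadj u (mem_sdiff.1 hu).1 v (mem_sdiff.1 hv).1
  · refine lt_of_le_of_lt (card_le_card ?_) hD.small
    intro v
    simp only [mem_sdiff, mem_univ, true_and, mem_union, not_or]
    intro h
    exact ⟨h.1, fun h' => h.2 (hsubT h')⟩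
  · have := hsz D1 hD.disj1
    omega
  · have := hsz D2 hD.disj2
    omega

/-- degree count in a state -/
theorem deg_count {k : ℕ} {F X : Finset V} (ht : (nbo G F X).card = k) {x : V} (hx : x ∈ X) :
    G.degree x + 1 ≤ X.card + k + (G.neighborFinset x ∩ F).card := by
  have h1 : G.neighborFinset x ⊆ (X.erase x) ∪ nbo G F X ∪ (G.neighborFinset x ∩ F) := by
    intro u hu
    have hu' := hu
    rw [SimpleGraph.mem_neighborFinset] at hu'
    rw [mem_union, mem_union, mem_erase, mem_nbo, mem_inter]
    by_cases h1 : u ∈ F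
    · right; exact ⟨hu, h1⟩
    · left
      by_cases h2 : u ∈ X
      · left; exact ⟨hu'.ne', h2⟩
      · right; exact ⟨h1, h2, x, hx, hu'⟩
  have h2 := card_le_card h1
  have h3 := card_union_le ((X.erase x) ∪ nbo G F X) (G.neighborFinset x ∩ F)
  have h4 := card_union_le (X.erase x) (nbo G F X)
  have h5 := card_erase_of_mem hx
  have h6 : 0 < X.card := card_pos.2 ⟨x, hx⟩
  rw [SimpleGraph.card_neighborFinset_eq_degree] at h2
  omega

/-- a copy using at most one vertex of `X` is good -/
theorem St.good_one {k z a mu : ℕ} {F X : Finset V} (hs : St G k z F X) (hka : k ≤ 2 * a + 1)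
    (hmu : mu = F.card + X.card + z) (hX : a + 1 ≤ X.card)
    (hmin : ∀ Q' X', Pair T G k Q' X' → mu ≤ Q'.card + X'.card)
    (h0 : NoSep G k ∅) {g : W → V} (hg : PC T G univ g) {x : V} (hx : x ∈ X)
    (hgx : ∀ w, g w ∈ insert x F) : NoSep G k (univ.image g) := by
  by_contra hbad
  obtain ⟨Z, N, Z', hsp, hN, hZ, hZ'⟩ := bad_split hmin h0 hg hbad
  set T' := univ.image g with hT'
  have hTx : T' ⊆ insert x F := by
    intro v hv
    rw [hT', mem_image] at hv
    obtain ⟨w, -, rfl⟩ := hv
    exact hgx w
  have hTFX : T' ⊆ F ∪ X := by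
    intro v hv
    rcases mem_insert.1 (hTx hv) with rfl | h
    · exact mem_union_right _ hx
    · exact mem_union_left _ h
  have hXe : X.erase x ⊆ X \ T' := by
    intro v hv
    rw [mem_erase] at hv
    rw [mem_sdiff]
    refine ⟨hv.2, fun h => ?_⟩
    rcases mem_insert.1 (hTx h) with h | h
    · exact hv.1 h
    · exact disjoint_left.1 hs.disj hv.2 h
  have hXc := card_le_card hXe
  rw [card_erase_of_mem hx] at hXc
  refine hs.good hka hTFX (by omega) ?_ hsp hN (by omega) (by omega)
  intro Y hY hYX
  have hYX' : Y ⊆ X := hYX.trans sdiff_subset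
  rcases eq_or_ne Y X with rfl | hne
  · have hxT : x ∉ T' := fun h => (mem_sdiff.1 (hYX hx)).2 h
    have hTF : F ∪ T' = F := by
      apply union_eq_left.2
      intro v hv
      rcases mem_insert.1 (hTx hv) with rfl | h
      · exact absurd hv hxT
      · exact h
    rw [hTF, hs.s2]
  · have h1 := hs.s3 Y hY (lt_of_le_of_ne hYX' hne)
    have h2 : nbo G F Y ⊆ insert x (nbo G (F ∪ T') Y) := by
      intro v hv
      rw [mem_nbo] at hv
      rw [mem_insert, mem_nbo]
      by_cases hvx : v = x
      · exact Or.inl hvx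
      · right
        refine ⟨?_, hv.2⟩
        rw [mem_union, not_or]
        refine ⟨hv.1, fun h => ?_⟩
        rcases mem_insert.1 (hTx h) with h | h
        · exact hvx h
        · exact hv.1 h
    have h3 := (card_le_card h2).trans (card_insert_le _ _)
    omega

/-- the descent: an invariant that embeds `T` as soon as some vertex has `m - 1` deleted
neighbours -/
theorem descent {k a m mu : ℕ} (hka : k ≤ 2 * a + 1) (ha : 1 ≤ a)
    (hmin : ∀ Q' X', Pair T G k Q' X' → mu ≤ Q'.card + X'.card) (h0 : NoSep G k ∅)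
    (hdeg : ∀ v, k + a + m ≤ G.degree v + 1) (Inv : Finset V → Finset V → Prop)
    (h1 : ∀ F X, Inv F X → X.Nonempty → ∃ y ∈ X, ∀ X' ⊆ X.erase y, Inv (insert y F) X')
    (h2 : ∀ F X, Inv F X → ∀ x ∈ X, m ≤ (G.neighborFinset x ∩ F).card + 1 →
      ∃ g : W → V, PC T G univ g ∧ ∀ w, g w ∈ insert x F) :
    ∀ (n z : ℕ) (F X : Finset V), X.card ≤ n → St G k z F X → Inv F X → a + 1 ≤ X.card →
      mu = F.card + X.card + z → ∃ g : W → V, PC T G univ g ∧ NoSep G k (univ.image g) := by
  intro n
  induction n with
  | zero => intro z F X hn _ _ hX _; omega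
  | succ n ih =>
    intro z F X hn hs hI hX hmu
    by_cases hbig : ∃ x ∈ X, m ≤ (G.neighborFinset x ∩ F).card + 1
    · obtain ⟨x, hx, hxm⟩ := hbig
      obtain ⟨g, hg, hgx⟩ := h2 F X hI x hx hxm
      exact ⟨g, hg, hs.good_one hka hmu hX hmin h0 hg hx hgx⟩
    · push Not at hbig
      obtain ⟨y, hy, hyI⟩ := h1 F X hI hs.ne
      obtain ⟨X', hX', z', hz', hs'⟩ := hs.step hka (by omega) (by omega) hy
      have hyF : y ∉ F := disjoint_left.1 hs.disj hy
      have hX'c := card_le_card hX'
      rw [card_erase_of_mem hy] at hX'c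
      refine ih z' (insert y F) X' (by omega) hs' (hyI X' hX') ?_ ?_
      · obtain ⟨x, hx⟩ := hs'.ne
        have hxX : x ∈ X := mem_of_mem_erase (hX' hx)
        have h3 := hbig x hxX
        have h4 := deg_count hs'.s2 hx
        have h5 := hdeg x
        have h6 : (G.neighborFinset x ∩ insert y F).card ≤ (G.neighborFinset x ∩ F).card + 1 := by
          have : G.neighborFinset x ∩ insert y F ⊆ insert y (G.neighborFinset x ∩ F) := by
            intro v
            simp only [mem_inter, mem_insert]
            tauto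
          exact (card_le_card this).trans (card_insert_le _ _)
        omega
      · rw [card_insert_of_notMem hyF]
        omega

end Pairs

section Main
variable {W : Type} [Fintype W] [DecidableEq W] (T : SimpleGraph W)
variable {V : Type*} [Fintype V] [DecidableEq V] (G : SimpleGraph V) [DecidableRel G.Adj]

theorem noSep_empty {k : ℕ} (hG : KConnected k G) : NoSep G k ∅ := by
  intro D1 D2 hD
  have hF : Frag G D1 := by
    refine ⟨hD.ne1, ?_⟩
    obtain ⟨v, hv⟩ := hD.ne2
    refine ⟨v, fun h => disjoint_left.1 hD.disj h hv, ?_⟩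
    rw [mem_nb]
    rintro ⟨-, u, hu, hadj⟩
    exact hD.nadj u hu v hv hadj
  have h1 := frag_of_kconn G hG hF
  have h2 : nb G D1 ⊆ univ \ (D1 ∪ D2 ∪ ∅) := by
    intro v hv
    rw [mem_nb] at hv
    obtain ⟨h1, u, hu, hadj⟩ := hv
    simp only [union_empty, mem_sdiff, mem_univ, true_and, mem_union, not_or]
    exact ⟨h1, fun h => hD.nadj u hu v h hadj⟩
  have h3 := card_le_card h2
  have h4 := hD.small
  omega

/-- some copy exists -/
theorem exists_copy (hT : T.IsTree) (hne : Nonempty V) (hd : ∀ v, Fintype.card W ≤ G.degree v + 1) :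
    ∃ g : W → V, PC T G univ g := by
  obtain ⟨v0⟩ := hne
  obtain ⟨φ, hφ, -⟩ := embed_tree G (fun _ => True) ⟨v0, trivial⟩ (Fintype.card W)
    (by
      intro Y u _ hY hu
      have h1 : (Y.erase u).card < (G.neighborFinset u).card := by
        rw [card_erase_of_mem hu, SimpleGraph.card_neighborFinset_eq_degree]
        have := hd u
        have : 0 < Y.card := card_pos.2 ⟨u, hu⟩
        omega
      obtain ⟨w, hw, hwY⟩ := exists_mem_notMem_of_card_lt_card h1
      rw [SimpleGraph.mem_neighborFinset] at hw
      refine ⟨w, fun h => hwY (mem_erase.2 ⟨hw.ne', h⟩), hw, trivial⟩)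
    (Fintype.card W) W T hT rfl le_rfl
  exact ⟨φ, fun a _ b _ hab => φ.injective hab, fun a _ b _ hab => hφ a b hab⟩

/-- Mader's conjecture for a tree `T` follows from an invariant `Inv` (which may depend on `G`)
of the deletion process which starts at every partial copy and embeds `T` -/
theorem mader_of_inv (hT : T.IsTree) {k : ℕ} (hk : 2 ≤ k) (hG : KConnected k G)
    (hd : 3 * k / 2 + Fintype.card W - 1 ≤ G.minDegree)
    (Inv : Finset V → Finset V → Prop)
    (hI0 : ∀ (I : Finset W) (g : W → V) (X : Finset V), I ≠ univ → PC T G I g →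
      Disjoint X (I.image g) → Inv (I.image g) X)
    (h1 : ∀ F X, Inv F X → X.Nonempty → ∃ y ∈ X, ∀ X' ⊆ X.erase y, Inv (insert y F) X')
    (h2 : ∀ F X, Inv F X → ∀ x ∈ X, Fintype.card W ≤ (G.neighborFinset x ∩ F).card + 1 →
      ∃ g : W → V, PC T G univ g ∧ ∀ w, g w ∈ insert x F) :
    ∃ φ : W ↪ V, (∀ u v, T.Adj u v → G.Adj (φ u) (φ v)) ∧
      KConnected k (G.induce (Set.range φ)ᶜ) := by
  classical
  have hW : 0 < Fintype.card W := by
    have := hT.1.nonempty
    exact Fintype.card_pos
  have hneV : Nonempty V := by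
    have h1 := hG.1
    rw [Nat.card_eq_fintype_card] at h1
    exact Fintype.card_pos_iff.1 (by omega)
  have hdv : ∀ v, k + k / 2 + Fintype.card W ≤ G.degree v + 1 := by
    intro v
    have := G.minDegree_le_degree v
    omega
  have hno := noSep_empty G hG
  -- it is enough to find a copy without separations
  suffices hsuff : ∃ g : W → V, PC T G univ g ∧ NoSep G k (univ.image g) by
    obtain ⟨g, hg, hgs⟩ := hsuff
    refine ⟨⟨g, fun a b => hg.inj a (mem_univ _) b (mem_univ _)⟩,
      fun u v huv => hg.adj u (mem_univ _) v (mem_univ _) huv, ?_⟩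
    have h1 := kconn_of_noSep G (k := k) (T := univ.image g) ?_ hgs
    · have h2 : ((univ.image g : Finset V) : Set V) = Set.range g := by simp
      rw [h2] at h1
      exact h1
    · obtain ⟨v⟩ := hneV
      have h3 := hdv v
      have h4 := G.degree_lt_card_verts v
      have h5 : (univ.image g).card ≤ Fintype.card W := by
        simpa using (card_image_le : ((univ : Finset W).image g).card ≤ _)
      omega
  by_cases hpair : ∃ p : Finset V × Finset V, Pair T G k p.1 p.2
  · obtain ⟨⟨Q, X⟩, hp, hpmin⟩ : ∃ p : Finset V × Finset V, Pair T G k p.1 p.2 ∧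
        ∀ q : Finset V × Finset V, Pair T G k q.1 q.2 →
          p.1.card + p.2.card ≤ q.1.card + q.2.card := by
      obtain ⟨p, hp, hmin⟩ := exists_min_image
        ((univ : Finset (Finset V × Finset V)).filter fun p => Pair T G k p.1 p.2)
        (fun p => p.1.card + p.2.card) (by
          obtain ⟨p, hp⟩ := hpair
          exact ⟨p, by simpa using hp⟩)
      simp only [mem_filter, mem_univ, true_and] at hp hmin
      exact ⟨p, hp, fun q hq => hmin q hq⟩
    simp only at hp hpmin
    have hmin : ∀ Q' X', Pair T G k Q' X' → Q.card + X.card ≤ Q'.card + X'.card :=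
      fun Q' X' h => hpmin (Q', X') h
    have hst := hp.st hmin
    obtain ⟨I, g, hI, hPC, rfl, hQno⟩ := hp.inQ
    have hIc : (I.image g).card + 1 ≤ Fintype.card W := by
      have h3 : (I.image g).card ≤ I.card := card_image_le
      have h4 : I.card < Fintype.card W := by
        rw [← card_univ]
        exact card_lt_card (lt_of_le_of_ne (subset_univ _) hI)
      omega
    have hXc : k / 2 + 1 ≤ X.card := by
      obtain ⟨x, hx⟩ := hp.ne
      have h3 := deg_count hp.tight hx
      have h4 := hdv x
      have h5 : (G.neighborFinset x ∩ I.image g).card ≤ (I.image g).card :=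
        card_le_card inter_subset_right
      omega
    exact descent (a := k / 2) (m := Fintype.card W) (mu := (I.image g).card + X.card)
      (by omega) (by omega) hmin hno hdv Inv h1 h2 X.card 0 (I.image g) X le_rfl hst
      (hI0 I g X hI hPC hp.disj) hXc (by omega)
  · obtain ⟨g, hg⟩ := exists_copy T G hT hneV (fun v => by have := hdv v; omega)
    refine ⟨g, hg, ?_⟩
    by_contra hbad
    push Not at hpair
    have hmin : ∀ Q' X', Pair T G k Q' X' → Fintype.card V + 1 ≤ Q'.card + X'.card :=
      fun Q' X' h => absurd h (hpair (Q', X'))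
    obtain ⟨Z, N, Z', hsp, -, hZ, -⟩ := bad_split hmin hno hg hbad
    have h3 : (Z ∪ univ.image g).card ≤ Fintype.card V := card_le_univ _
    rw [card_union_of_disjoint hsp.dZF] at h3
    omega

end Main

end Pool.Agent.Lib_MP_f6e057_co.GL
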