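import Pool.Agent.Lib_MP_f6e057_co.GL.Lev
import Pool.Agent.Lib_MP_f6e057_co.GL.Pairs

/-!
# The level lemma and partial copies

A partial copy of `T` on a set `I` of roles closed under descendants (root not in `I`), and a
labelled set `U` of further vertices.
-/

set_option autoImplicit false
set_option linter.unusedSectionVars false

namespace Pool.Agent.Lib_MP_f6e057_co.GL

open Finset Exch

section LevEmbed
variable {W : Type*} [Fintype W] [DecidableEq W] {T : SimpleGraph W} {r : W} (Rt : Rooted T r)
variable {V : Type*} [Fintype V] [DecidableEq V] (G : SimpleGraph V) [DecidableRel G.Adj]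

/-- the number of roles of depth `i` whose home is missing or not adjacent to `w` -/
def need (I : Finset W) (g : W → V) (i : ℕ) (w : V) : ℕ :=
  (univ.filter fun t => t ≠ r ∧ Rt.dep t = Rt.dep r + i ∧ (t ∉ I ∨ ¬ G.Adj (g t) w)).card

/-- the number of neighbours of `w` in `U` with label `i` -/
def cnt (U : Finset V) (l : V → ℕ) (i : ℕ) (w : V) : ℕ :=
  ((G.neighborFinset w ∩ U).filter fun u => l u = i).card

variable {G}

theorem mem_desc_root (a : W) : a ∈ Desc Rt r := by
  have key : ∀ (n : ℕ) (a : W), Rt.dep a ≤ n → a ∈ Desc Rt r := by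
    intro n
    induction n with
    | zero =>
      intro a ha
      by_cases har : a = r
      · rw [har]; exact self_mem Rt r
      · have := Rt.dep_par a har
        omega
    | succ n ih =>
      intro a ha
      by_cases har : a = r
      · rw [har]; exact self_mem Rt r
      · have := Rt.dep_par a har
        exact child_mem Rt (ih _ (by omega))
  exact key _ a le_rfl

theorem lev_embed {I : Finset W} {g : W → V} (hPC : PC T G I g)
    (hI : ∀ a ∈ I, Desc Rt a ⊆ I) {U : Finset V} (hU : Disjoint U (I.image g))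
    {l : V → ℕ} {x : V} (hxU : x ∉ U) (hxI : x ∉ I.image g)
    (hx : need Rt G I g 1 x ≤ cnt G U l 1 x)
    (hy : ∀ y ∈ U, 1 ≤ l y ∧ need Rt G I g (l y + 1) y ≤ cnt G U l (l y + 1) y) :
    ∃ ψ : W → V, PC T G univ ψ ∧ ∀ w, ψ w ∈ insert x (I.image g ∪ U) := by
  classical
  let lev : V → ℕ := fun u => if u = x then Rt.dep r else Rt.dep r + l u
  let E : V → Finset W := fun y => univ.filter fun t => t ≠ r ∧ (t ∉ I ∨ ¬ G.Adj (g t) y)
  have hlx : lev x = Rt.dep r := by simp [lev]
  have hlU : ∀ u ∈ U, lev u = Rt.dep r + l u := by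
    intro u hu
    have : u ≠ x := by
      rintro rfl
      exact hxU hu
    simp [lev, this]
  have hdmd : ∀ (y : V) (i : ℕ), lev y = Rt.dep r + i →
      dmd Rt lev E univ y = need Rt G I g (i + 1) y := by
    intro y i hyi
    unfold dmd need
    congr 1
    ext t
    simp only [E, mem_filter, mem_inter, mem_univ, true_and, and_true]
    rw [hyi]
    constructor
    · rintro ⟨⟨h1, h2⟩, h3⟩
      exact ⟨h1, by omega, h2⟩
    · rintro ⟨h1, h3, h2⟩
      exact ⟨⟨h1, h2⟩, by omega⟩
  have havl : ∀ (y : V) (i : ℕ), lev y = Rt.dep r + i →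
      avl G lev U y = cnt G U l (i + 1) y := by
    intro y i hyi
    unfold avl cnt
    congr 1
    ext u
    simp only [mem_filter, mem_inter]
    rw [hyi]
    constructor
    · rintro ⟨⟨h1, h2⟩, h3⟩
      rw [hlU u h2] at h3
      exact ⟨⟨h1, h2⟩, by omega⟩
    · rintro ⟨⟨h1, h2⟩, h3⟩
      refine ⟨⟨h1, h2⟩, ?_⟩
      rw [hlU u h2]
      omega
  obtain ⟨S, ψ, -, h2, h3, h4, h5, h6, h7, h8⟩ := level_lemma (Rt := Rt) (G := G) (lev := lev)
    (E := E) (univ : Finset W).card univ r x U le_rfl (mem_univ _)
    (fun a _ => mem_desc_root Rt a) (fun a _ _ => mem_univ _) hlx hxU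
    (by
      intro y hyU
      have := (hy y hyU).1
      rw [hlx, hlU y hyU]
      omega)
    (by
      intro y hyx
      rcases mem_insert.1 hyx with rfl | hyU
      · rw [hdmd y 0 (by omega), havl y 0 (by omega)]
        exact hx
      · rw [hdmd y _ (hlU y hyU), havl y _ (hlU y hyU)]
        exact (hy y hyU).2)
  -- roles outside `S` are at home
  have hout : ∀ a, a ∉ S → a ∈ I ∧ (Rt.par a ∈ S → G.Adj (ψ (Rt.par a)) (g a)) := by
    have key : ∀ (n : ℕ) (a : W), Rt.dep a ≤ n → a ∉ S →
        a ∈ I ∧ (Rt.par a ∈ S → G.Adj (ψ (Rt.par a)) (g a)) := by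
      intro n
      induction n with
      | zero =>
        intro a ha haS
        have har : a ≠ r := by
          rintro rfl
          exact haS h2
        have := Rt.dep_par a har
        omega
      | succ n ih =>
        intro a ha haS
        have har : a ≠ r := by
          rintro rfl
          exact haS h2
        have hd := Rt.dep_par a har
        by_cases hp : Rt.par a ∈ S
        · have hE : a ∉ E (ψ (Rt.par a)) := fun h => haS (h8 a (mem_univ _) har hp h)
          simp only [E, mem_filter, mem_univ, true_and, not_and, not_or, not_not] at hE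
          have := hE har
          exact ⟨this.1, fun _ => this.2.symm⟩
        · refine ⟨hI _ (ih (Rt.par a) (by omega) hp).1 (child_mem Rt (self_mem Rt _)), fun h => ?_⟩
          exact absurd h hp
    exact fun a => key _ a le_rfl
  let φ : W → V := fun a => if a ∈ S then ψ a else g a
  have e1 : ∀ a, a ∈ S → φ a = ψ a := fun a ha => if_pos ha
  have e2 : ∀ a, a ∉ S → φ a = g a := fun a ha => if_neg ha
  have im1 : ∀ a ∈ S, ψ a ∈ insert x U := by
    intro a ha
    by_cases har : a = r
    · rw [har, h5]; exact mem_insert_self _ _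
    · exact mem_insert_of_mem (h6 a ha har)
  have hdis : ∀ v ∈ insert x U, v ∉ I.image g := by
    intro v hv
    rcases mem_insert.1 hv with rfl | hv
    · exact hxI
    · exact disjoint_left.1 hU hv
  have hedge : ∀ b, b ≠ r → G.Adj (φ (Rt.par b)) (φ b) := by
    intro b hb
    by_cases hbS : b ∈ S
    · rw [e1 b hbS, e1 _ (h3 b hbS hb)]
      exact h7 b hbS hb
    · rw [e2 b hbS]
      by_cases hp : Rt.par b ∈ S
      · rw [e1 _ hp]
        exact (hout b hbS).2 hp
      · rw [e2 _ hp]
        exact hPC.adj _ (hout _ hp).1 _ (hout b hbS).1 (Rt.adj_par b hb)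
  refine ⟨φ, ⟨?_, ?_⟩, ?_⟩
  · intro a _ b _ hab
    by_cases ha : a ∈ S <;> by_cases hb : b ∈ S
    · rw [e1 a ha, e1 b hb] at hab
      exact h4 a ha b hb hab
    · exfalso
      rw [e1 a ha, e2 b hb] at hab
      apply hdis _ (im1 a ha)
      rw [hab]
      exact mem_image_of_mem g (hout b hb).1
    · exfalso
      rw [e2 a ha, e1 b hb] at hab
      apply hdis _ (im1 b hb)
      rw [← hab]
      exact mem_image_of_mem g (hout a ha).1
    · rw [e2 a ha, e2 b hb] at hab
      exact hPC.inj a (hout a ha).1 b (hout b hb).1 hab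
  · intro a _ b _ hab
    rcases Rt.adj_cases a b hab with ⟨hb, hp⟩ | ⟨ha, hp⟩
    · have := hedge b hb
      rwa [hp] at this
    · have := hedge a ha
      rw [hp] at this
      exact this.symm
  · intro a
    by_cases ha : a ∈ S
    · rw [e1 a ha]
      rcases mem_insert.1 (im1 a ha) with h | h
      · rw [h]; exact mem_insert_self _ _
      · exact mem_insert_of_mem (mem_union_right _ h)
    · rw [e2 a ha]
      exact mem_insert_of_mem (mem_union_left _ (mem_image_of_mem g (hout a ha).1))

end LevEmbed

end Pool.Agent.Lib_MP_f6e057_co.GL
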