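import Pool.Agent.Lib_MP_f6e057_co.Basic

/-!
# States and the local deletion process
-/

set_option autoImplicit false
set_option linter.unusedSectionVars false

namespace Pool.Agent.Lib_MP_f6e057_co.GL

open Finset

section Local
variable {V : Type*} [Fintype V] [DecidableEq V] (G : SimpleGraph V) [DecidableRel G.Adj]

/-- neighbours of `Y` outside `Y` and outside `F` -/
def nbo (F Y : Finset V) : Finset V := nb G Y \ F

/-- the vertices outside `F` that are neither in `X` nor neighbours of `X` -/
def far (F X : Finset V) : Finset V := univ.filter fun v => v ∉ F ∧ v ∉ X ∧ v ∉ nb G X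

/-- the states of the local deletion process -/
structure St (k z : ℕ) (F X : Finset V) : Prop where
  disj : Disjoint X F
  ne : X.Nonempty
  s2 : (nbo G F X).card = k
  s3 : ∀ Y, Y.Nonempty → Y ⊂ X → k + 1 ≤ (nbo G F Y).card
  star : ∀ Y, Y.Nonempty → Y ⊆ far G F X → (nbo G F Y).card < k → Y.card ≤ z
  big : 2 * z + X.card ≤ (far G F X).card

/-- `Z`, `N`, `Z'` partition the complement of `F`, and there are no edges between
`Z` and `Z'` -/
structure Split (F Z N Z' : Finset V) : Prop where
  cover : ∀ v, v ∉ F → v ∈ Z ∨ v ∈ N ∨ v ∈ Z'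
  dZN : Disjoint Z N
  dZZ : Disjoint Z Z'
  dNZ : Disjoint N Z'
  dZF : Disjoint Z F
  dNF : Disjoint N F
  dZF' : Disjoint Z' F
  nadj : ∀ a ∈ Z, ∀ b ∈ Z', ¬ G.Adj a b

variable {G}

theorem mem_nbo {F Y : Finset V} {v : V} :
    v ∈ nbo G F Y ↔ v ∉ F ∧ v ∉ Y ∧ ∃ u ∈ Y, G.Adj u v := by
  simp only [nbo, mem_sdiff, mem_nb]; tauto

theorem mem_far {F X : Finset V} {v : V} :
    v ∈ far G F X ↔ v ∉ F ∧ v ∉ X ∧ v ∉ nb G X := by
  simp [far]

theorem Split.symm {F Z N Z' : Finset V} (h : Split G F Z N Z') : Split G F Z' N Z :=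
  ⟨fun v hv => by rcases h.cover v hv with h | h | h <;> tauto, h.dNZ.symm, h.dZZ.symm,
    h.dZN.symm, h.dZF', h.dNF, h.dZF, fun a ha b hb hab => h.nadj b hb a ha hab.symm⟩

theorem Split.card_eq {F Z N Z' P : Finset V} (h : Split G F Z N Z') (hP : Disjoint P F) :
    P.card = (Z ∩ P).card + (N ∩ P).card + (Z' ∩ P).card := by
  have h1 : P = (Z ∩ P) ∪ (N ∩ P) ∪ (Z' ∩ P) := by
    ext v
    simp only [mem_union, mem_inter]
    constructor
    · intro hv
      rcases h.cover v (disjoint_left.1 hP hv) with h | h | h <;> tauto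
    · tauto
  have h2 : Disjoint (Z ∩ P) (N ∩ P) := disjoint_of_subset_left inter_subset_left
    (disjoint_of_subset_right inter_subset_left h.dZN)
  have h3 : Disjoint ((Z ∩ P) ∪ (N ∩ P)) (Z' ∩ P) := by
    rw [disjoint_union_left]
    exact ⟨disjoint_of_subset_left inter_subset_left
      (disjoint_of_subset_right inter_subset_left h.dZZ),
      disjoint_of_subset_left inter_subset_left
      (disjoint_of_subset_right inter_subset_left h.dNZ)⟩
  conv_lhs => rw [h1]
  rw [card_union_of_disjoint h3, card_union_of_disjoint h2]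

/-- the complement of `F` is the disjoint union of `X \ F1`, the neighbours and the far side -/
theorem part_card {F X F1 Z : Finset V} (hF : F ⊆ F1) (hF1 : F1 ⊆ F ∪ X) (hd : Disjoint X F)
    (hZ : Disjoint Z F1) :
    Z.card = (Z ∩ (X \ F1)).card + (Z ∩ nbo G F X).card + (Z ∩ far G F X).card := by
  have h1 : Z = (Z ∩ (X \ F1)) ∪ (Z ∩ nbo G F X) ∪ (Z ∩ far G F X) := by
    ext v
    simp only [mem_union, mem_inter, mem_sdiff, mem_nbo, mem_far, mem_nb]
    constructor
    · intro hv
      have hv1 := disjoint_left.1 hZ hv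
      have hv2 : v ∉ F := fun h => hv1 (hF h)
      generalize (∃ u ∈ X, G.Adj u v) = p
      tauto
    · tauto
  have h2 : Disjoint (Z ∩ (X \ F1)) (Z ∩ nbo G F X) := by
    rw [disjoint_left]
    intro v
    simp only [mem_inter, mem_sdiff, mem_nbo]
    tauto
  have h3 : Disjoint ((Z ∩ (X \ F1)) ∪ (Z ∩ nbo G F X)) (Z ∩ far G F X) := by
    rw [disjoint_left]
    intro v
    simp only [mem_union, mem_inter, mem_sdiff, mem_nbo, mem_far, mem_nb]
    generalize (∃ u ∈ X, G.Adj u v) = p
    tauto
  conv_lhs => rw [h1]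
  rw [card_union_of_disjoint h3, card_union_of_disjoint h2]

/-- the counting lemma for a separation one side of which meets `X` -/
theorem cross {k z : ℕ} {F X F1 Z N Z' : Finset V} (hs : St G k z F X) (hF : F ⊆ F1)
    (hF1 : F1 ⊆ F ∪ X) (hsp : Split G F1 Z N Z') (hN : N.card < k)
    (hloc : k ≤ (nbo G F1 (Z ∩ X)).card) :
    1 + (N ∩ far G F X).card ≤ (Z ∩ nbo G F X).card ∧ (Z' ∩ far G F X).card ≤ z ∧
      (Z' ∩ nbo G F X).card ≤ (N ∩ (X \ F1)).card := by
  have hSF : Disjoint (nbo G F X) F1 := by
    rw [disjoint_left]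
    intro v hv hv1
    rw [mem_nbo] at hv
    rcases mem_union.1 (hF1 hv1) with h | h
    · exact hv.1 h
    · exact hv.2.1 h
  have hS := hsp.card_eq hSF
  rw [hs.s2] at hS
  have hNc := part_card (G := G) hF hF1 hs.disj hsp.dNF
  -- first inclusion
  have h1 : nbo G F1 (Z ∩ X) ⊆ (N ∩ (X \ F1)) ∪ (nbo G F X \ Z') := by
    intro v hv
    rw [mem_nbo] at hv
    obtain ⟨hv1, hv2, u, hu, hadj⟩ := hv
    rw [mem_inter] at hu
    have hvZ' : v ∉ Z' := fun h => hsp.nadj u hu.1 v h hadj
    rw [mem_union, mem_inter, mem_sdiff, mem_sdiff, mem_nbo]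
    by_cases hvX : v ∈ X
    · left
      refine ⟨?_, hvX, hv1⟩
      rcases hsp.cover v hv1 with h | h | h
      · exact absurd (mem_inter.2 ⟨h, hvX⟩) hv2
      · exact h
      · exact absurd h hvZ'
    · right
      exact ⟨⟨fun h => hv1 (hF h), hvX, u, hu.2, hadj⟩, hvZ'⟩
  have h1c := (card_le_card h1).trans (card_union_le _ _)
  have h1d : (nbo G F X \ Z').card + (Z' ∩ nbo G F X).card = k := by
    rw [inter_comm, card_sdiff_add_card_inter, hs.s2]
  -- second inclusion
  have h2 : nbo G F (Z' ∩ far G F X) ⊆ (N ∩ far G F X) ∪ (nbo G F X \ Z) := by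
    intro v hv
    rw [mem_nbo] at hv
    obtain ⟨hv1, hv2, u, hu, hadj⟩ := hv
    rw [mem_inter, mem_far] at hu
    obtain ⟨huZ, huF, huX, hunb⟩ := hu
    have hvX : v ∉ X := by
      intro h
      apply hunb
      rw [mem_nb]
      exact ⟨huX, v, h, hadj.symm⟩
    have hvF1 : v ∉ F1 := by
      intro h
      rcases mem_union.1 (hF1 h) with h | h
      · exact hv1 h
      · exact hvX h
    have hvZ : v ∉ Z := fun h => hsp.nadj v h u huZ hadj.symm
    rw [mem_union, mem_inter, mem_sdiff, mem_far, mem_nbo]
    by_cases hvN : v ∈ nb G X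
    · right
      rw [mem_nb] at hvN
      exact ⟨⟨hv1, hvN⟩, hvZ⟩
    · left
      refine ⟨?_, hv1, hvX, hvN⟩
      rcases hsp.cover v hvF1 with h | h | h
      · exact absurd h hvZ
      · exact h
      · exact absurd (mem_inter.2 ⟨h, mem_far.2 ⟨hv1, hvX, hvN⟩⟩) hv2
  have h2c := (card_le_card h2).trans (card_union_le _ _)
  have h2d : (nbo G F X \ Z).card + (Z ∩ nbo G F X).card = k := by
    rw [inter_comm, card_sdiff_add_card_inter, hs.s2]
  refine ⟨by omega, ?_, by omega⟩
  rcases eq_empty_or_nonempty (Z' ∩ far G F X) with he | hne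
  · rw [he]; simp
  · exact hs.star _ hne inter_subset_right (by omega)

/-- both sides meeting `X` is impossible -/
theorem no_cross {k z a : ℕ} {F X F1 Z N Z' : Finset V} (hs : St G k z F X) (hF : F ⊆ F1)
    (hF1 : F1 ⊆ F ∪ X) (hsp : Split G F1 Z N Z') (hN : N.card < k) (hka : k ≤ 2 * a + 1)
    (hX : a ≤ X.card)
    (hloc : k ≤ (nbo G F1 (Z ∩ X)).card) (hloc' : k ≤ (nbo G F1 (Z' ∩ X)).card) : False := by
  obtain ⟨h1, h2, -⟩ := cross hs hF hF1 hsp hN hloc
  obtain ⟨h3, h4, -⟩ := cross hs hF hF1 hsp.symm hN hloc'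
  have hSF : Disjoint (nbo G F X) F1 := by
    rw [disjoint_left]
    intro v hv hv1
    rw [mem_nbo] at hv
    rcases mem_union.1 (hF1 hv1) with h | h
    · exact hv.1 h
    · exact hv.2.1 h
  have hOF : Disjoint (far G F X) F1 := by
    rw [disjoint_left]
    intro v hv hv1
    rw [mem_far] at hv
    rcases mem_union.1 (hF1 hv1) with h | h
    · exact hv.1 h
    · exact hv.2.1 h
  have hS := hsp.card_eq hSF
  rw [hs.s2] at hS
  have hO := hsp.card_eq hOF
  have hb := hs.big
  omega

/-- every set is part of the canonical split -/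
theorem split_of (F1 Z : Finset V) (hZ : Disjoint Z F1) :
    Split G F1 Z (nbo G F1 Z) (far G F1 Z) := by
  refine ⟨?_, ?_, ?_, ?_, hZ, ?_, ?_, ?_⟩
  · intro v hv
    simp only [mem_nbo, mem_far, mem_nb]
    generalize (∃ u ∈ Z, G.Adj u v) = p
    tauto
  · rw [disjoint_left]; intro v; simp only [mem_nbo]; tauto
  · rw [disjoint_left]; intro v; simp only [mem_far]; tauto
  · rw [disjoint_left]; intro v; simp only [mem_nbo, mem_far, mem_nb]
    generalize (∃ u ∈ Z, G.Adj u v) = p
    tauto
  · rw [disjoint_left]; intro v; simp only [mem_nbo]; tauto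
  · rw [disjoint_left]; intro v; simp only [mem_far]; tauto
  · intro u hu v hv hadj
    rw [mem_far, mem_nb] at hv
    exact hv.2.2 ⟨hv.2.1, u, hu, hadj⟩

/-- one step of the process -/
theorem St.step {k z a : ℕ} {F X : Finset V} (hs : St G k z F X) (hka : k ≤ 2 * a + 1)
    (hX : a ≤ X.card) (hX2 : 2 ≤ X.card) {y : V} (hy : y ∈ X) :
    ∃ X' ⊆ X.erase y, ∃ z', z' + X'.card + 1 = z + X.card ∧ St G k z' (insert y F) X' := by
  set A := X.erase y with hA
  set F' := insert y F with hF'
  have hAX : A ⊂ X := erase_ssubset hy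
  have hAc : A.card + 1 = X.card := by rw [hA]; exact card_erase_add_one hy
  have hAne : A.Nonempty := by rw [← card_pos]; omega
  have hyF : y ∉ F := disjoint_left.1 hs.disj hy
  have hFF' : F ⊆ F' := subset_insert y F
  have hF'X : F' ⊆ F ∪ X := by
    intro v hv
    rcases mem_insert.1 hv with rfl | hv
    · exact mem_union_right _ hy
    · exact mem_union_left _ hv
  -- all nonempty subsets of `A` still have `k` neighbours
  have hB : ∀ B, B.Nonempty → B ⊆ A → k ≤ (nbo G F' B).card := by
    intro B hB hBA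
    have h1 := hs.s3 B hB (lt_of_le_of_lt hBA hAX)
    have h2 : (nbo G F B).card ≤ (nbo G F' B).card + 1 := by
      have h3 : nbo G F B ⊆ insert y (nbo G F' B) := by
        intro v hv
        rw [mem_nbo] at hv
        rw [mem_insert, mem_nbo]
        by_cases hvy : v = y
        · exact Or.inl hvy
        · right
          refine ⟨?_, hv.2⟩
          rw [hF', mem_insert]
          tauto
      exact (card_le_card h3).trans (card_insert_le _ _)
    omega
  -- A is tight
  have hAt : (nbo G F' A).card = k := by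
    apply le_antisymm _ (hB A hAne (Subset.refl _))
    rw [← hs.s2]
    apply card_le_card
    intro v hv
    rw [mem_nbo] at hv ⊢
    obtain ⟨h1, h2, u, hu, hadj⟩ := hv
    rw [hF', mem_insert, not_or] at h1
    refine ⟨h1.2, fun h => h2 (mem_erase.2 ⟨h1.1, h⟩), u, mem_of_mem_erase hu, hadj⟩
  -- minimal tight subset
  obtain ⟨X', hX'mem, hX'min⟩ := exists_min_image
    ((A.powerset).filter fun B => B.Nonempty ∧ (nbo G F' B).card = k) card
    ⟨A, by simp only [mem_filter, mem_powerset]; exact ⟨Subset.refl _, hAne, hAt⟩⟩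
  simp only [mem_filter, mem_powerset] at hX'mem hX'min
  obtain ⟨hX'A, hX'ne, hX't⟩ := hX'mem
  have hX'c : X'.card ≤ A.card := card_le_card hX'A
  refine ⟨X', hX'A, z + (A.card - X'.card), by omega, ?_⟩
  have hX'F' : Disjoint X' F' := by
    rw [disjoint_left]
    intro v hv hvF
    have h1 := hX'A hv
    rw [hA, mem_erase] at h1
    rcases mem_insert.1 hvF with h | h
    · exact h1.1 h
    · exact disjoint_left.1 hs.disj h1.2 h
  refine ⟨hX'F', hX'ne, hX't, ?_, ?_, ?_⟩
  · intro Y hY hYX
    have h1 := hB Y hY (hYX.1.trans hX'A)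
    rcases Nat.lt_or_ge k (nbo G F' Y).card with h | h
    · exact h
    · exfalso
      have h2 := hX'min Y ⟨hYX.1.trans hX'A, hY, le_antisymm h h1⟩
      exact absurd (card_lt_card hYX) (not_lt.2 h2)
  · intro W hW hWO hWk
    have hWF' : Disjoint W F' := by
      rw [disjoint_left]
      intro v hv
      exact (mem_far.1 (hWO hv)).1
    have hsp := split_of (G := G) F' W hWF'
    have hX'far : X' ⊆ far G F' W := by
      intro v hv
      rw [mem_far]
      refine ⟨disjoint_left.1 hX'F' hv, ?_, ?_⟩
      · intro h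
        exact (mem_far.1 (hWO h)).2.1 hv
      · intro h
        rw [mem_nb] at h
        obtain ⟨h1, u, hu, hadj⟩ := h
        have h2 := mem_far.1 (hWO hu)
        apply h2.2.2
        rw [mem_nb]
        exact ⟨h2.2.1, v, hv, hadj.symm⟩
    have hsub : ∀ Z : Finset V, Disjoint Z F' → Z ∩ X ⊆ A := by
      intro Z hZ v hv
      rw [mem_inter] at hv
      rw [hA, mem_erase]
      refine ⟨?_, hv.2⟩
      rintro rfl
      exact disjoint_left.1 hZ hv.1 (mem_insert_self _ _)
    have hfne : (far G F' W ∩ X).Nonempty := by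
      obtain ⟨v, hv⟩ := hX'ne
      exact ⟨v, mem_inter.2 ⟨hX'far hv, mem_of_mem_erase (hX'A hv)⟩⟩
    have hloc' := hB _ hfne (hsub _ hsp.dZF')
    rcases eq_empty_or_nonempty (W ∩ X) with hWX | hWX
    · obtain ⟨-, h2, h3⟩ := cross hs hFF' hF'X hsp.symm hWk hloc'
      have h4 := part_card (G := G) hFF' hF'X hs.disj hWF'
      have h5 : W ∩ (X \ F') = ∅ := by
        rw [← subset_empty, ← hWX]
        exact inter_subset_inter (Subset.refl _) sdiff_subset
      rw [h5, card_empty] at h4
      have h6 : nbo G F' W ∩ (X \ F') ⊆ A \ X' := by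
        intro v hv
        rw [mem_inter, mem_sdiff] at hv
        rw [mem_sdiff]
        refine ⟨?_, ?_⟩
        · rw [hA, mem_erase]
          refine ⟨?_, hv.2.1⟩
          rintro rfl
          exact hv.2.2 (mem_insert_self _ _)
        · intro h
          exact (mem_far.1 (hX'far h)).2.2 (mem_sdiff.1 hv.1).1
      have h7 := card_le_card h6
      rw [card_sdiff_of_subset hX'A] at h7
      omega
    · exfalso
      exact no_cross hs hFF' hF'X hsp hWk hka hX (hB _ hWX (hsub _ hWF')) hloc'
  · -- the far side stays big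
    have hb := hs.big
    have h1 : far G F X ∪ (A \ X') ∪ nbo G F X ⊆ far G F' X' ∪ nbo G F' X' := by
      intro v hv
      rw [mem_union, mem_nbo]
      have hvF' : v ∉ F' ∧ v ∉ X' := by
        simp only [mem_union, mem_far, mem_nbo, mem_sdiff] at hv
        rcases hv with (⟨h1, h2, -⟩ | ⟨h1, h2⟩) | ⟨h1, h2, -⟩
        · refine ⟨fun h => ?_, fun h => h2 (mem_of_mem_erase (hX'A h))⟩
          rcases mem_insert.1 h with rfl | h
          · exact h2 hy
          · exact h1 h
        · refine ⟨fun h => ?_, h2⟩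
          rw [hA, mem_erase] at h1
          rcases mem_insert.1 h with h | h
          · exact h1.1 h
          · exact disjoint_left.1 hs.disj h1.2 h
        · refine ⟨fun h => ?_, fun h => h2 (mem_of_mem_erase (hX'A h))⟩
          rcases mem_insert.1 h with rfl | h
          · exact h2 hy
          · exact h1 h
      rw [mem_far, mem_nb]
      generalize (∃ u ∈ X', G.Adj u v) = p
      tauto
    have h2 := card_le_card h1
    have h3 := card_union_le (far G F' X') (nbo G F' X')
    have h4 : Disjoint (far G F X) (A \ X') := by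
      rw [disjoint_left]
      intro v hv h
      rw [mem_far] at hv
      exact hv.2.1 (mem_of_mem_erase (mem_sdiff.1 h).1)
    have h5 : Disjoint (far G F X ∪ (A \ X')) (nbo G F X) := by
      rw [disjoint_left]
      intro v hv h
      rw [mem_nbo] at h
      rcases mem_union.1 hv with hv | hv
      · rw [mem_far] at hv
        exact hv.2.2 ((mem_nb G).2 h.2)
      · exact h.2.1 (mem_of_mem_erase (mem_sdiff.1 hv).1)
    rw [card_union_of_disjoint h5, card_union_of_disjoint h4, hs.s2, card_sdiff_of_subset hX'A] at h2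
    omega

/-- Stage A' -/
theorem St.good {k z a : ℕ} {F X : Finset V} (hs : St G k z F X) (hka : k ≤ 2 * a + 1)
    {T' : Finset V} (hT : T' ⊆ F ∪ X) (ha : a ≤ (X \ T').card)
    (hloc : ∀ Y, Y.Nonempty → Y ⊆ X \ T' → k ≤ (nbo G (F ∪ T') Y).card)
    {Z N Z' : Finset V} (hsp : Split G T' Z N Z') (hN : N.card < k)
    (hZ : F.card + X.card + z + 1 ≤ Z.card + T'.card)
    (hZ' : F.card + X.card + z + 1 ≤ Z'.card + T'.card) : False := by
  set F1 := F ∪ T' with hF1
  have hFF1 : F ⊆ F1 := subset_union_left
  have hF1X : F1 ⊆ F ∪ X := union_subset subset_union_left hT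
  have hXF1 : X \ F1 = X \ T' := by
    ext v
    simp only [mem_sdiff, hF1, mem_union]
    have := fun h : v ∈ X => disjoint_left.1 hs.disj h
    tauto
  -- the split after deleting `F`
  have hsp1 : Split G F1 (Z \ F) (N \ F) (Z' \ F) := by
    refine ⟨?_, ?_, ?_, ?_, ?_, ?_, ?_, ?_⟩
    · intro v hv
      rw [hF1, mem_union, not_or] at hv
      simp only [mem_sdiff]
      rcases hsp.cover v hv.2 with h | h | h <;> tauto
    · exact disjoint_of_subset_left sdiff_subset (disjoint_of_subset_right sdiff_subset hsp.dZN)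
    · exact disjoint_of_subset_left sdiff_subset (disjoint_of_subset_right sdiff_subset hsp.dZZ)
    · exact disjoint_of_subset_left sdiff_subset (disjoint_of_subset_right sdiff_subset hsp.dNZ)
    · rw [disjoint_left]
      intro v hv h
      rw [mem_sdiff] at hv
      rcases mem_union.1 h with h | h
      · exact hv.2 h
      · exact disjoint_left.1 hsp.dZF hv.1 h
    · rw [disjoint_left]
      intro v hv h
      rw [mem_sdiff] at hv
      rcases mem_union.1 h with h | h
      · exact hv.2 h
      · exact disjoint_left.1 hsp.dNF hv.1 h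
    · rw [disjoint_left]
      intro v hv h
      rw [mem_sdiff] at hv
      rcases mem_union.1 h with h | h
      · exact hv.2 h
      · exact disjoint_left.1 hsp.dZF' hv.1 h
    · intro u hu v hv
      exact hsp.nadj u (mem_sdiff.1 hu).1 v (mem_sdiff.1 hv).1
  have hN1 : (N \ F).card < k := lt_of_le_of_lt (card_le_card sdiff_subset) hN
  -- sizes
  have hcard : F1.card + (X \ T').card = F.card + X.card := by
    have h1 : F1 ∪ (X \ T') = F ∪ X := by
      ext v
      simp only [hF1, mem_union, mem_sdiff]
      have := fun h : v ∈ T' => mem_union.1 (hT h)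
      tauto
    have h2 : Disjoint F1 (X \ T') := by
      rw [← hXF1]; exact disjoint_sdiff
    rw [← card_union_of_disjoint h2, h1, card_union_of_disjoint hs.disj.symm]
  have hsize : ∀ Z : Finset V, Disjoint Z T' → F.card + X.card + z + 1 ≤ Z.card + T'.card →
      (X \ T').card + z + 1 ≤ (Z \ F).card := by
    intro Z hZT hZc
    have h1 : (Z ∪ T').card = Z.card + T'.card := card_union_of_disjoint hZT
    have h2 : Z ∪ T' ⊆ (Z \ F) ∪ F1 := by
      intro v
      simp only [hF1, mem_union, mem_sdiff]
      tauto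
    have h3 := (card_le_card h2).trans (card_union_le _ _)
    omega
  have hZ1 := hsize Z hsp.dZF hZ
  have hZ1' := hsize Z' hsp.dZF' hZ'
  have hc1 := part_card (G := G) hFF1 hF1X hs.disj hsp1.dZF
  have hc2 := part_card (G := G) hFF1 hF1X hs.disj hsp1.dNF
  have hc3 := part_card (G := G) hFF1 hF1X hs.disj hsp1.dZF'
  have hcX := hsp1.card_eq (P := X \ F1) (by exact sdiff_disjoint)
  have hsubX : ∀ Z : Finset V, Disjoint Z F1 → Z ∩ X = Z ∩ (X \ F1) := by
    intro Z hZ
    ext v
    simp only [mem_inter, mem_sdiff]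
    have := fun h : v ∈ Z => disjoint_left.1 hZ h
    tauto
  have hlocZ : ∀ Z : Finset V, Disjoint Z F1 → (Z ∩ (X \ F1)).Nonempty →
      k ≤ (nbo G F1 (Z ∩ X)).card := by
    intro Z hZ hne
    rw [hsubX Z hZ]
    apply hloc _ hne
    rw [hXF1]
    exact inter_subset_right
  have haX : a ≤ X.card := ha.trans (card_le_card sdiff_subset)
  have hSF : Disjoint (nbo G F X) F1 := by
    rw [disjoint_left]
    intro v hv hv1
    rw [mem_nbo] at hv
    rcases mem_union.1 (hF1X hv1) with h | h
    · exact hv.1 h
    · exact hv.2.1 h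
  have hS := hsp1.card_eq hSF
  rw [hs.s2] at hS
  rw [hXF1] at hcX hc1 hc2 hc3 hlocZ
  rcases eq_empty_or_nonempty ((Z \ F) ∩ (X \ T')) with he | hne
  · rcases eq_empty_or_nonempty ((Z' \ F) ∩ (X \ T')) with he' | hne'
    · -- case III
      rw [he, card_empty] at hcX hc1
      rw [he', card_empty] at hcX hc3
      have key : ∀ Z N Z' : Finset V, Split G F1 Z N Z' →
          Z.card = (Z ∩ nbo G F X).card + (Z ∩ far G F X).card →
          (X \ T').card + z + 1 ≤ Z.card →
          (N ∩ nbo G F X).card + (N ∩ far G F X).card + (X \ T').card < k →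
          (X \ T').card + 1 ≤ (Z ∩ nbo G F X).card := by
        intro Z N Z' hsp hZc hZ1 hNc
        rcases Nat.lt_or_ge z (Z ∩ far G F X).card with hz | hz
        · have hne : (Z ∩ far G F X).Nonempty := by rw [← card_pos]; omega
          have h1 : k ≤ (nbo G F (Z ∩ far G F X)).card := by
            by_contra hlt
            push Not at hlt
            have := hs.star _ hne inter_subset_right hlt
            omega
          have h2 : nbo G F (Z ∩ far G F X) ⊆
              (N ∩ far G F X) ∪ (N ∩ nbo G F X) ∪ (Z ∩ nbo G F X) := by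
            intro v hv
            rw [mem_nbo] at hv
            obtain ⟨hv1, hv2, u, hu, hadj⟩ := hv
            rw [mem_inter, mem_far] at hu
            obtain ⟨huZ, huF, huX, hunb⟩ := hu
            have hvX : v ∉ X := by
              intro h
              apply hunb
              rw [mem_nb]
              exact ⟨huX, v, h, hadj.symm⟩
            have hvF1 : v ∉ F1 := by
              intro h
              rcases mem_union.1 (hF1X h) with h | h
              · exact hv1 h
              · exact hvX h
            have hvZ' : v ∉ Z' := fun h => hsp.nadj u huZ v h hadj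
            rw [mem_union, mem_union, mem_inter, mem_inter, mem_inter, mem_far, mem_nbo]
            by_cases hvN : v ∈ nb G X
            · rw [mem_nb] at hvN
              rcases hsp.cover v hvF1 with h | h | h
              · right; exact ⟨h, hv1, hvN⟩
              · left; right; exact ⟨h, hv1, hvN⟩
              · exact absurd h hvZ'
            · rcases hsp.cover v hvF1 with h | h | h
              · exact absurd (mem_inter.2 ⟨h, mem_far.2 ⟨hv1, hvX, hvN⟩⟩) hv2
              · left; left; exact ⟨h, hv1, hvX, hvN⟩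
              · exact absurd h hvZ'
          have h3 := (card_le_card h2).trans (card_union_le _ _)
          have h4 := card_union_le (N ∩ far G F X) (N ∩ nbo G F X)
          omega
        · omega
      have k1 := key _ _ _ hsp1 (by omega) hZ1 (by omega)
      have k2 := key _ _ _ hsp1.symm (by omega) hZ1' (by omega)
      omega
    · -- case II
      obtain ⟨-, h2, h3⟩ := cross hs hFF1 hF1X hsp1.symm hN1 (hlocZ _ hsp1.dZF' hne')
      rw [hXF1] at h3
      have h4 : 0 < ((Z' \ F) ∩ (X \ T')).card := card_pos.2 hne'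
      rw [he, card_empty] at hcX hc1
      omega
  · rcases eq_empty_or_nonempty ((Z' \ F) ∩ (X \ T')) with he' | hne'
    · obtain ⟨-, h2, h3⟩ := cross hs hFF1 hF1X hsp1 hN1 (hlocZ _ hsp1.dZF hne)
      rw [hXF1] at h3
      have h4 : 0 < ((Z \ F) ∩ (X \ T')).card := card_pos.2 hne
      rw [he', card_empty] at hcX hc3
      omega
    · exact no_cross hs hFF1 hF1X hsp1 hN1 hka haX (hlocZ _ hsp1.dZF hne)
        (hlocZ _ hsp1.dZF' hne')

end Local

end Pool.Agent.Lib_MP_f6e057_co.GL
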