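import Pool.Agent.Lib_MP_f6e057_co.GL.LevEmbed

/-!
# The labelling rule

Every deleted vertex gets a label `≥ 1`.  A vertex `w` of the region is ready for the label `i` if
it has at least `need (i + 1) w` neighbours with label `i + 1`.  The rule deletes the vertex with
the smallest ready label.
-/

set_option autoImplicit false
set_option linter.unusedSectionVars false

namespace Pool.Agent.Lib_MP_f6e057_co.GL

open Finset Exch

section Rule
variable {W : Type*} [Fintype W] [DecidableEq W] {T : SimpleGraph W} {r : W} (Rt : Rooted T r)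
variable {V : Type*} [Fintype V] [DecidableEq V] (G : SimpleGraph V) [DecidableRel G.Adj]

/-- the invariant of the labelled deletion process -/
def LInv (F X : Finset V) : Prop :=
  ∃ (I : Finset W) (g : W → V) (U : Finset V) (l : V → ℕ), r ∉ I ∧ (∀ a ∈ I, Desc Rt a ⊆ I) ∧
    PC T G I g ∧ F = I.image g ∪ U ∧ Disjoint U (I.image g) ∧
    (∀ y ∈ U, 1 ≤ l y ∧ need Rt G I g (l y + 1) y ≤ cnt G U l (l y + 1) y) ∧
    (∀ w ∈ X, ∀ i, 1 ≤ i → cnt G U l i w ≤ need Rt G I g i w)

variable {G}

theorem dep_root_lt {a : W} (ha : a ≠ r) : Rt.dep r < Rt.dep a :=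
  dep_lt Rt (mem_desc_root Rt a) ha

/-- the counting: neighbours in the partial copy, demanded roles, and the root -/
theorem home_card {I : Finset W} (g : W → V) (hr : r ∉ I) (x : V) :
    (G.neighborFinset x ∩ I.image g).card +
      (univ.filter fun t => t ≠ r ∧ (t ∉ I ∨ ¬ G.Adj (g t) x)).card + 1 ≤ Fintype.card W := by
  classical
  have h1 : (G.neighborFinset x ∩ I.image g).card ≤
      (univ.filter fun t => t ∈ I ∧ G.Adj (g t) x).card := by
    have h2 : G.neighborFinset x ∩ I.image g ⊆
        (univ.filter fun t => t ∈ I ∧ G.Adj (g t) x).image g := by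
      intro v hv
      rw [mem_inter, SimpleGraph.mem_neighborFinset, mem_image] at hv
      obtain ⟨h1, t, ht, rfl⟩ := hv
      rw [mem_image]
      exact ⟨t, by simp [ht, h1.symm], rfl⟩
    exact (card_le_card h2).trans card_image_le
  have hd1 : Disjoint (univ.filter fun t => t ∈ I ∧ G.Adj (g t) x)
      (univ.filter fun t => t ≠ r ∧ (t ∉ I ∨ ¬ G.Adj (g t) x)) := by
    rw [disjoint_left]
    intro t
    simp only [mem_filter, mem_univ, true_and]
    tauto
  have hd2 : Disjoint ((univ.filter fun t => t ∈ I ∧ G.Adj (g t) x) ∪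
      (univ.filter fun t => t ≠ r ∧ (t ∉ I ∨ ¬ G.Adj (g t) x))) {r} := by
    rw [disjoint_singleton_right, mem_union]
    simp only [mem_filter, mem_univ, true_and]
    rintro (⟨h, -⟩ | ⟨h, -⟩)
    · exact hr h
    · exact h rfl
  have h3 := card_le_univ (((univ.filter fun t => t ∈ I ∧ G.Adj (g t) x) ∪
      (univ.filter fun t => t ≠ r ∧ (t ∉ I ∨ ¬ G.Adj (g t) x))) ∪ {r})
  rw [card_union_of_disjoint hd2, card_union_of_disjoint hd1, card_singleton] at h3
  omega

theorem sum_need_le {I : Finset W} (g : W → V) (n : ℕ) (x : V) :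
    ∑ i ∈ Icc 1 n, need Rt G I g i x ≤
      (univ.filter fun t => t ≠ r ∧ (t ∉ I ∨ ¬ G.Adj (g t) x)).card := by
  classical
  unfold need
  rw [← card_biUnion]
  · apply card_le_card
    intro t
    simp only [mem_biUnion, mem_filter, mem_univ, true_and]
    rintro ⟨i, -, h1, -, h2⟩
    exact ⟨h1, h2⟩
  · intro i _ j _ hij
    rw [Function.onFun, disjoint_left]
    intro t
    simp only [mem_filter, mem_univ, true_and]
    rintro ⟨-, h1, -⟩ ⟨-, h2, -⟩
    exact hij (by omega)

theorem sum_cnt {U : Finset V} {l : V → ℕ} (hl : ∀ y ∈ U, 1 ≤ l y) (x : V) :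
    ∃ n, 1 ≤ n ∧ (G.neighborFinset x ∩ U).card = ∑ i ∈ Icc 1 n, cnt G U l i x := by
  classical
  refine ⟨U.sup l + 1, by omega, ?_⟩
  unfold cnt
  apply card_eq_sum_card_fiberwise
  intro u hu
  rw [mem_coe, mem_inter] at hu
  rw [mem_coe, mem_Icc]
  exact ⟨hl u hu.2, (le_sup (f := l) hu.2).trans (Nat.le_succ _)⟩

theorem exists_ready {I : Finset W} (g : W → V) (U : Finset V) (l : V → ℕ) (w : V) :
    ∃ i, 1 ≤ i ∧ need Rt G I g (i + 1) w ≤ cnt G U l (i + 1) w := by
  classical
  refine ⟨(univ : Finset W).sup Rt.dep + 1, by omega, ?_⟩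
  have : need Rt G I g ((univ : Finset W).sup Rt.dep + 1 + 1) w = 0 := by
    unfold need
    rw [card_eq_zero, filter_eq_empty_iff]
    rintro t - ⟨-, h, -⟩
    have := le_sup (f := Rt.dep) (mem_univ t)
    omega
  rw [this]
  exact Nat.zero_le _

/-- one step of the labelled process, or the tree is found -/
theorem LInv.step {F X : Finset V} (hInv : LInv Rt G F X) (hne : X.Nonempty)
    (hd : Disjoint X F) :
    (∃ x ∈ X, (G.neighborFinset x ∩ F).card + 1 ≤ Fintype.card W ∧
      ∃ g : W → V, PC T G univ g ∧ ∀ w, g w ∈ insert x F) ∨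
    ((∀ x ∈ X, (G.neighborFinset x ∩ F).card + 2 ≤ Fintype.card W) ∧
      ∃ y ∈ X, ∀ X' ⊆ X.erase y, LInv Rt G (insert y F) X') := by
  classical
  obtain ⟨I, g, U, l, hr, hI, hPC, rfl, hU, h2, h1⟩ := hInv
  have hXI : ∀ x ∈ X, x ∉ I.image g := fun x hx h =>
    disjoint_left.1 hd hx (mem_union_left _ h)
  have hXU : ∀ x ∈ X, x ∉ U := fun x hx h => disjoint_left.1 hd hx (mem_union_right _ h)
  -- the count
  have hcount : ∀ x ∈ X, (G.neighborFinset x ∩ (I.image g ∪ U)).card + 1 ≤ Fintype.card W ∧
      (cnt G U l 1 x < need Rt G I g 1 x →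
        (G.neighborFinset x ∩ (I.image g ∪ U)).card + 2 ≤ Fintype.card W) := by
    intro x hx
    obtain ⟨n, hn1, hn⟩ := sum_cnt (G := G) (l := l) (fun y hy => (h2 y hy).1) x
    have e1 : (G.neighborFinset x ∩ (I.image g ∪ U)).card ≤
        (G.neighborFinset x ∩ I.image g).card + (G.neighborFinset x ∩ U).card := by
      rw [inter_union_distrib_left]
      exact card_union_le _ _
    have e2 := home_card (G := G) (I := I) g hr x
    have e3 := sum_need_le Rt (G := G) (I := I) g n x
    have e4 : ∑ i ∈ Icc 1 n, cnt G U l i x ≤ ∑ i ∈ Icc 1 n, need Rt G I g i x :=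
      sum_le_sum fun i hi => h1 x hx i (mem_Icc.1 hi).1
    refine ⟨by omega, fun hlt => ?_⟩
    have e5 : ∑ i ∈ Icc 1 n, cnt G U l i x < ∑ i ∈ Icc 1 n, need Rt G I g i x :=
      sum_lt_sum (fun i hi => h1 x hx i (mem_Icc.1 hi).1)
        ⟨1, mem_Icc.2 ⟨le_rfl, hn1⟩, hlt⟩
    omega
  by_cases hwin : ∃ x ∈ X, need Rt G I g 1 x ≤ cnt G U l 1 x
  · left
    obtain ⟨x, hx, hxw⟩ := hwin
    exact ⟨x, hx, (hcount x hx).1,
      lev_embed Rt hPC hI hU (hXU x hx) (hXI x hx) hxw h2⟩
  · right
    push Not at hwin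
    refine ⟨fun x hx => (hcount x hx).2 (hwin x hx), ?_⟩
    -- the smallest ready label
    let rd : V → ℕ := fun w => Nat.find (exists_ready Rt (G := G) (I := I) g U l w)
    have hrd : ∀ w, 1 ≤ rd w ∧ need Rt G I g (rd w + 1) w ≤ cnt G U l (rd w + 1) w :=
      fun w => Nat.find_spec (exists_ready Rt (G := G) (I := I) g U l w)
    have hrdmin : ∀ w i, 1 ≤ i → need Rt G I g (i + 1) w ≤ cnt G U l (i + 1) w → rd w ≤ i :=
      fun w i h h' => Nat.find_min' (exists_ready Rt (G := G) (I := I) g U l w) ⟨h, h'⟩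
    obtain ⟨y, hy, hymin⟩ := exists_min_image X rd hne
    refine ⟨y, hy, ?_⟩
    intro X' hX'
    have hyU := hXU y hy
    let l' : V → ℕ := Function.update l y (rd y)
    have hl'y : l' y = rd y := by simp [l']
    have hl'U : ∀ u ∈ U, l' u = l u := by
      intro u hu
      have : u ≠ y := by
        rintro rfl
        exact hyU hu
      simp [l', this]
    have hmono : ∀ i w, cnt G U l i w ≤ cnt G (insert y U) l' i w := by
      intro i w
      unfold cnt
      apply card_le_card
      intro u
      simp only [mem_filter, mem_inter]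
      rintro ⟨⟨h3, h4⟩, h5⟩
      exact ⟨⟨h3, mem_insert_of_mem h4⟩, by rw [hl'U u h4]; exact h5⟩
    have hup : ∀ i w, cnt G (insert y U) l' i w ≤ cnt G U l i w + 1 := by
      intro i w
      unfold cnt
      have : ((G.neighborFinset w ∩ insert y U).filter fun u => l' u = i) ⊆
          insert y ((G.neighborFinset w ∩ U).filter fun u => l u = i) := by
        intro u
        simp only [mem_filter, mem_inter, mem_insert]
        rintro ⟨⟨h3, h4⟩, h5⟩
        rcases h4 with h4 | h4
        · exact Or.inl h4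
        · right
          exact ⟨⟨h3, h4⟩, by rw [← hl'U u h4]; exact h5⟩
      exact (card_le_card this).trans (card_insert_le _ _)
    have heq : ∀ i w, i ≠ rd y → cnt G (insert y U) l' i w ≤ cnt G U l i w := by
      intro i w hi
      unfold cnt
      apply card_le_card
      intro u
      simp only [mem_filter, mem_inter, mem_insert]
      rintro ⟨⟨h3, h4⟩, h5⟩
      rcases h4 with h4 | h4
      · exfalso
        rw [h4, hl'y] at h5
        exact hi h5.symm
      · exact ⟨⟨h3, h4⟩, by rw [← hl'U u h4]; exact h5⟩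
    refine ⟨I, g, insert y U, l', hr, hI, hPC, ?_, ?_, ?_, ?_⟩
    · rw [union_insert]
    · rw [disjoint_insert_left]
      exact ⟨hXI y hy, hU⟩
    · intro u hu
      rcases mem_insert.1 hu with rfl | hu
      · rw [hl'y]
        exact ⟨(hrd u).1, (hrd u).2.trans (hmono _ _)⟩
      · rw [hl'U u hu]
        exact ⟨(h2 u hu).1, (h2 u hu).2.trans (hmono _ _)⟩
    · intro w hw i hi
      have hwX : w ∈ X := mem_of_mem_erase (hX' hw)
      by_cases hiy : i = rd y
      · have hlt : cnt G U l i w < need Rt G I g i w := by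
          by_contra hge
          push Not at hge
          rcases Nat.lt_or_ge i 2 with h3 | h3
          · have : i = 1 := by omega
            rw [this] at hge
            exact absurd (hwin w hwX) (not_lt.2 hge)
          · have h4 := hrdmin w (i - 1) (by omega) (by rw [Nat.sub_add_cancel hi]; exact hge)
            have h5 := hymin w hwX
            omega
        exact (hup i w).trans hlt
      · exact (heq i w hiy).trans (h1 w hwX i hi)

/-- the start of the process -/
theorem LInv.start {I : Finset W} {g : W → V} (hr : r ∉ I) (hI : ∀ a ∈ I, Desc Rt a ⊆ I)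
    (hPC : PC T G I g) (X : Finset V) : LInv Rt G (I.image g) X := by
  refine ⟨I, g, ∅, fun _ => 1, hr, hI, hPC, by simp, by simp, by simp, ?_⟩
  intro w _ i _
  have : cnt G (∅ : Finset V) (fun _ => 1) i w = 0 := by simp [cnt]
  rw [this]
  exact Nat.zero_le _

/-- the classes of roles: closed under descendants, and not containing the root unless full -/
def CDesc (I : Finset W) : Prop := I = univ ∨ (r ∉ I ∧ ∀ a ∈ I, Desc Rt a ⊆ I)

theorem CDesc.empty : CDesc Rt ∅ := Or.inr ⟨by simp, by simp⟩

theorem CDesc.extend {I : Finset W} (h : CDesc Rt I) (hne : I ≠ univ) :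
    ∃ w, w ∉ I ∧ CDesc Rt (insert w I) := by
  classical
  rcases h with h | ⟨hr, hI⟩
  · exact absurd h hne
  · by_cases hall : ∃ w, w ∉ I ∧ w ≠ r
    · obtain ⟨w, hw, hmax⟩ := exists_max_image (univ.filter fun w => w ∉ I ∧ w ≠ r) Rt.dep
        (by obtain ⟨w, hw⟩ := hall; exact ⟨w, by simpa using hw⟩)
      simp only [mem_filter, mem_univ, true_and] at hw hmax
      refine ⟨w, hw.1, Or.inr ⟨?_, ?_⟩⟩
      · rw [mem_insert, not_or]
        exact ⟨hw.2.symm, hr⟩
      · intro a ha b hb
        rcases mem_insert.1 ha with rfl | ha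
        · by_cases hba : b = a
          · rw [hba]; exact mem_insert_self _ _
          · have hlt := dep_lt Rt hb hba
            have hbr : b ≠ r := by
              rintro rfl
              exact hba (eq_root_of_root_mem Rt hb).symm
            by_contra hbI
            have := hmax b ⟨fun h => hbI (mem_insert_of_mem h), hbr⟩
            omega
        · exact mem_insert_of_mem (hI a ha hb)
    · push Not at hall
      refine ⟨r, hr, Or.inl ?_⟩
      rw [eq_univ_iff_forall]
      intro w
      by_cases hw : w ∈ I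
      · exact mem_insert_of_mem hw
      · rw [hall w hw]; exact mem_insert_self _ _

end Rule

end Pool.Agent.Lib_MP_f6e057_co.GL
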