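import Pool.Agent.Lib_MP_f6e057_co.GL.PairsC
import Pool.Agent.Lib_MP_f6e057_co.GL.Rule

/-!
# Mader's conjecture for all trees
-/

set_option autoImplicit false
set_option linter.unusedSectionVars false

namespace Pool.Agent.Lib_MP_f6e057_co.GL

open Finset Exch

theorem mader_all {V W : Type} [Fintype V] [Fintype W] (G : SimpleGraph V) [DecidableRel G.Adj]
    (T : SimpleGraph W) (hT : T.IsTree) (k : ℕ) (hk : 2 ≤ k) (hG : KConnected k G)
    (hd : 3 * k / 2 + Fintype.card W - 1 ≤ G.minDegree) :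
    ∃ φ : W ↪ V, (∀ u v, T.Adj u v → G.Adj (φ u) (φ v)) ∧
      KConnected k (G.induce (Set.range φ)ᶜ) := by
  classical
  obtain ⟨r⟩ := hT.1.nonempty
  obtain ⟨Rt⟩ := exists_rooted hT r
  refine mader_of_invC T (CDesc Rt) G hT hk hG hd (CDesc.empty Rt)
    (fun I h hne => CDesc.extend Rt h hne) (LInv Rt G) ?_ ?_
  · intro I g X hC hI hPC _
    rcases hC with h | ⟨hr, hD⟩
    · exact absurd h hI
    · exact LInv.start Rt hr hD hPC X
  · intro F X hInv hX hdis
    exact LInv.step Rt hInv hX hdis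

end Pool.Agent.Lib_MP_f6e057_co.GL
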