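import Pool.Agent.Lib_MP_f6e057_co.GL.Pairs

/-!
# Minimal pairs relative to a class of sets of roles, and the descent

`C` is a predicate on sets of roles (vertices of `T`) which holds for `∅` and can be extended
one role at a time up to `univ`.
-/

set_option autoImplicit false
set_option linter.unusedSectionVars false
set_option maxHeartbeats 400000

namespace Pool.Agent.Lib_MP_f6e057_co.GL

open Finset

section PairsC
variable {W : Type*} [Fintype W] [DecidableEq W] (T : SimpleGraph W) (C : Finset W → Prop)
variable {V : Type*} [Fintype V] [DecidableEq V] (G : SimpleGraph V) [DecidableRel G.Adj]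

/-- images of proper partial copies in the class whose deletion leaves no small separation -/
def InQC (k : ℕ) (Q : Finset V) : Prop :=
  ∃ (I : Finset W) (g : W → V), C I ∧ I ≠ univ ∧ PC T G I g ∧ Q = I.image g ∧ NoSep G k Q

/-- pairs -/
structure PairC (k : ℕ) (Q X : Finset V) : Prop where
  inQ : InQC T C G k Q
  ne : X.Nonempty
  disj : Disjoint X Q
  tight : (nbo G Q X).card = k
  fne : (far G Q X).Nonempty

variable {T C G}

theorem PairC.sym {k : ℕ} {Q X : Finset V} (h : PairC T C G k Q X) : PairC T C G k Q (far G Q X) := by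
  have hsp := split_of (G := G) Q X h.disj
  have hff : (far G Q (far G Q X)).Nonempty := h.ne.mono (subset_far_far h.disj)
  refine ⟨h.inQ, h.fne, hsp.dZF', ?_, hff⟩
  apply le_antisymm
  · rw [← h.tight]
    exact card_le_card (nbo_far_subset h.disj)
  · obtain ⟨I, g, -, -, -, -, hno⟩ := h.inQ
    exact hno.le h.fne hsp.dZF' hff

/-- a minimum pair is a state -/
theorem PairC.st {k : ℕ} {Q X : Finset V} (h : PairC T C G k Q X)
    (hmin : ∀ Q' X', PairC T C G k Q' X' → Q.card + X.card ≤ Q'.card + X'.card) :
    St G k 0 Q X := by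
  have hno : NoSep G k Q := by
    obtain ⟨I, g, -, -, -, -, hno⟩ := h.inQ
    exact hno
  refine ⟨h.disj, h.ne, h.tight, ?_, ?_, ?_⟩
  · intro Y hY hYX
    have hd : Disjoint Y Q := disjoint_of_subset_left hYX.1 h.disj
    have hf : (far G Q Y).Nonempty := h.fne.mono (far_mono hYX.1)
    have h1 := hno.le hY hd hf
    rcases Nat.lt_or_ge k (nbo G Q Y).card with h2 | h2
    · exact h2
    · exfalso
      have h3 := hmin Q Y ⟨h.inQ, hY, hd, le_antisymm h2 h1, hf⟩
      have h4 := card_lt_card hYX
      omega
  · intro Y hY hYf hlt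
    exfalso
    have hd : Disjoint Y Q := by
      rw [disjoint_left]
      intro v hv
      exact (mem_far.1 (hYf hv)).1
    have hf : (far G Q Y).Nonempty :=
      h.ne.mono ((subset_far_far h.disj).trans (far_mono hYf))
    exact absurd (hno.le hY hd hf) (not_le.2 hlt)
  · have := hmin Q _ h.sym
    omega

/-- a bad copy gives a separation both sides of which are large -/
theorem bad_splitC {k mu : ℕ} (hC0 : C ∅)
    (hCs : ∀ I, C I → I ≠ univ → ∃ w, w ∉ I ∧ C (insert w I)) (hmin : ∀ Q' X', PairC T C G k Q' X' → mu ≤ Q'.card + X'.card)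
    (h0 : NoSep G k ∅) {g : W → V} (hg : PC T G univ g) (hbad : ¬ NoSep G k (univ.image g)) :
    ∃ Z N Z' : Finset V, Split G (univ.image g) Z N Z' ∧ N.card < k ∧
      mu + 1 ≤ Z.card + (univ.image g).card ∧ mu + 1 ≤ Z'.card + (univ.image g).card := by
  classical
  have hPC : ∀ I : Finset W, PC T G I g := fun I =>
    ⟨fun a _ b _ => hg.inj a (mem_univ _) b (mem_univ _),
      fun a _ b _ => hg.adj a (mem_univ _) b (mem_univ _)⟩
  have hinj : Function.Injective g := fun a b => hg.inj a (mem_univ _) b (mem_univ _)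
  obtain ⟨I, hI, hImax⟩ := exists_max_image ((univ : Finset (Finset W)).filter
    fun I => C I ∧ NoSep G k (I.image g)) card ⟨∅, by simpa using ⟨hC0, h0⟩⟩
  simp only [mem_filter, mem_univ, true_and] at hI hImax
  obtain ⟨hCI, hI⟩ := hI
  have hIne : I ≠ univ := by
    rintro rfl
    exact hbad hI
  obtain ⟨w, hw, hCw⟩ := hCs I hCI hIne
  have hsep : ¬ NoSep G k ((insert w I).image g) := by
    intro h
    have := hImax _ ⟨hCw, h⟩
    rw [card_insert_of_notMem hw] at this
    omega
  unfold NoSep at hsep
  push Not at hsep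
  obtain ⟨D1, D2, hD⟩ := hsep
  have hQ : I.image g ⊆ (insert w I).image g := image_subset_image (subset_insert w I)
  have hinQ : InQC T C G k (I.image g) := ⟨I, g, hCI, hIne, hPC I, rfl, hI⟩
  have hIc : (I.image g).card = I.card := card_image_of_injective _ hinj
  have hwc : ((insert w I).image g).card = I.card + 1 := by
    rw [card_image_of_injective _ hinj, card_insert_of_notMem hw]
  -- both sides give pairs
  have key : ∀ D1 D2 : Finset V, Sep G k ((insert w I).image g) D1 D2 →
      mu ≤ I.card + D1.card := by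
    intro D1 D2 hD
    have hd : Disjoint D1 (I.image g) := disjoint_of_subset_right hQ hD.disj1
    have hf : (far G (I.image g) D1).Nonempty := by
      refine hD.ne2.mono ?_
      intro v hv
      rw [mem_far, mem_nb]
      refine ⟨fun h => disjoint_left.1 hD.disj2 hv (hQ h),
        fun h => disjoint_left.1 hD.disj h hv, ?_⟩
      rintro ⟨-, u, hu, hadj⟩
      exact hD.nadj u hu v hv hadj
    have h1 := hI.le hD.ne1 hd hf
    have h2 : nbo G (I.image g) D1 ⊆ insert (g w)
        (univ \ (D1 ∪ D2 ∪ (insert w I).image g)) := by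
      intro v hv
      rw [mem_nbo] at hv
      obtain ⟨h1, h2, u, hu, hadj⟩ := hv
      rw [mem_insert]
      by_cases hvw : v = g w
      · exact Or.inl hvw
      · right
        simp only [mem_sdiff, mem_univ, true_and, mem_union, not_or]
        refine ⟨⟨h2, fun h => hD.nadj u hu v h hadj⟩, ?_⟩
        rw [image_insert, mem_insert, not_or]
        exact ⟨hvw, h1⟩
    have h3 := (card_le_card h2).trans (card_insert_le _ _)
    have h4 := hD.small
    have h5 := hmin _ _ (⟨hinQ, hD.ne1, hd, by omega, hf⟩ : PairC T C G k (I.image g) D1)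
    omega
  have k1 := key D1 D2 hD
  have hDs : Sep G k ((insert w I).image g) D2 D1 := by
    refine ⟨hD.ne2, hD.ne1, hD.disj.symm, hD.disj2, hD.disj1,
      fun a ha b hb hab => hD.nadj b hb a ha hab.symm, ?_⟩
    rw [union_comm D2 D1]
    exact hD.small
  have k2 := key D2 D1 hDs
  set T' := univ.image g with hT'
  have hsubT : (insert w I).image g ⊆ T' := image_subset_image (subset_univ _)
  have hsz : ∀ D : Finset V, Disjoint D ((insert w I).image g) →
      D.card + I.card + 1 ≤ (D \ T').card + T'.card := by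
    intro D hD
    have h1 := card_union_of_disjoint hD
    have h2 : D ∪ (insert w I).image g ⊆ (D \ T') ∪ T' := by
      intro v hv
      rcases mem_union.1 hv with h | h
      · by_cases hvT : v ∈ T'
        · exact mem_union_right _ hvT
        · exact mem_union_left _ (mem_sdiff.2 ⟨h, hvT⟩)
      · exact mem_union_right _ (hsubT h)
    have h3 := (card_le_card h2).trans (card_union_le _ _)
    omega
  refine ⟨D1 \ T', univ \ (D1 ∪ D2 ∪ T'), D2 \ T', ?_, ?_, ?_, ?_⟩
  · refine ⟨?_, ?_, ?_, ?_, sdiff_disjoint, ?_, sdiff_disjoint, ?_⟩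
    · intro v hv
      simp only [mem_sdiff, mem_univ, true_and, mem_union]
      tauto
    · rw [disjoint_left]; intro v; simp only [mem_sdiff, mem_univ, true_and, mem_union]; tauto
    · exact disjoint_of_subset_left sdiff_subset (disjoint_of_subset_right sdiff_subset hD.disj)
    · rw [disjoint_left]; intro v; simp only [mem_sdiff, mem_univ, true_and, mem_union]; tauto
    · rw [disjoint_left]; intro v; simp only [mem_sdiff, mem_univ, true_and, mem_union]; tauto
    · intro u hu v hv
      exact hD.nadj u (mem_sdiff.1 hu).1 v (mem_sdiff.1 hv).1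
  · refine lt_of_le_of_lt (card_le_card ?_) hD.small
    intro v
    simp only [mem_sdiff, mem_univ, true_and, mem_union, not_or]
    intro h
    exact ⟨h.1, fun h' => h.2 (hsubT h')⟩
  · have := hsz D1 hD.disj1
    omega
  · have := hsz D2 hD.disj2
    omega

/-- a copy using at most one vertex of `X` is good -/
theorem St.good_oneC {k z a mu : ℕ} {F X : Finset V} (hC0 : C ∅)
    (hCs : ∀ I, C I → I ≠ univ → ∃ w, w ∉ I ∧ C (insert w I)) (hs : St G k z F X) (hka : k ≤ 2 * a + 1)
    (hmu : mu = F.card + X.card + z) (hX : a + 1 ≤ X.card)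
    (hmin : ∀ Q' X', PairC T C G k Q' X' → mu ≤ Q'.card + X'.card)
    (h0 : NoSep G k ∅) {g : W → V} (hg : PC T G univ g) {x : V} (hx : x ∈ X)
    (hgx : ∀ w, g w ∈ insert x F) : NoSep G k (univ.image g) := by
  by_contra hbad
  obtain ⟨Z, N, Z', hsp, hN, hZ, hZ'⟩ := bad_splitC hC0 hCs hmin h0 hg hbad
  set T' := univ.image g with hT'
  have hTx : T' ⊆ insert x F := by
    intro v hv
    rw [hT', mem_image] at hv
    obtain ⟨w, -, rfl⟩ := hv
    exact hgx w
  have hTFX : T' ⊆ F ∪ X := by
    intro v hv
    rcases mem_insert.1 (hTx hv) with rfl | h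
    · exact mem_union_right _ hx
    · exact mem_union_left _ h
  have hXe : X.erase x ⊆ X \ T' := by
    intro v hv
    rw [mem_erase] at hv
    rw [mem_sdiff]
    refine ⟨hv.2, fun h => ?_⟩
    rcases mem_insert.1 (hTx h) with h | h
    · exact hv.1 h
    · exact disjoint_left.1 hs.disj hv.2 h
  have hXc := card_le_card hXe
  rw [card_erase_of_mem hx] at hXc
  refine hs.good hka hTFX (by omega) ?_ hsp hN (by omega) (by omega)
  intro Y hY hYX
  have hYX' : Y ⊆ X := hYX.trans sdiff_subset
  rcases eq_or_ne Y X with rfl | hne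
  · have hxT : x ∉ T' := fun h => (mem_sdiff.1 (hYX hx)).2 h
    have hTF : F ∪ T' = F := by
      apply union_eq_left.2
      intro v hv
      rcases mem_insert.1 (hTx hv) with rfl | h
      · exact absurd hv hxT
      · exact h
    rw [hTF, hs.s2]
  · have h1 := hs.s3 Y hY (lt_of_le_of_ne hYX' hne)
    have h2 : nbo G F Y ⊆ insert x (nbo G (F ∪ T') Y) := by
      intro v hv
      rw [mem_nbo] at hv
      rw [mem_insert, mem_nbo]
      by_cases hvx : v = x
      · exact Or.inl hvx
      · right
        refine ⟨?_, hv.2⟩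
        rw [mem_union, not_or]
        refine ⟨hv.1, fun h => ?_⟩
        rcases mem_insert.1 (hTx h) with h | h
        · exact hvx h
        · exact hv.1 h
    have h3 := (card_le_card h2).trans (card_insert_le _ _)
    omega

/-- the descent: in every state either some `x` in `X` has at most `m - 1` neighbours in `F` and
`T` embeds in `F ∪ {x}`, or all vertices of `X` have at most `m - 2` neighbours in `F` and a
vertex of `X` can be deleted such that the invariant survives -/
theorem descentC {k a m mu : ℕ} (hka : k ≤ 2 * a + 1) (ha : 1 ≤ a) (hC0 : C ∅)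
    (hCs : ∀ I, C I → I ≠ univ → ∃ w, w ∉ I ∧ C (insert w I))
    (hmin : ∀ Q' X', PairC T C G k Q' X' → mu ≤ Q'.card + X'.card) (h0 : NoSep G k ∅)
    (hdeg : ∀ v, k + a + m ≤ G.degree v + 1) (Inv : Finset V → Finset V → Prop)
    (hstep : ∀ F X, Inv F X → X.Nonempty → Disjoint X F →
      (∃ x ∈ X, (G.neighborFinset x ∩ F).card + 1 ≤ m ∧
        ∃ g : W → V, PC T G univ g ∧ ∀ w, g w ∈ insert x F) ∨
      ((∀ x ∈ X, (G.neighborFinset x ∩ F).card + 2 ≤ m) ∧
        ∃ y ∈ X, ∀ X' ⊆ X.erase y, Inv (insert y F) X')) :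
    ∀ (n z : ℕ) (F X : Finset V), X.card ≤ n → St G k z F X → Inv F X →
      mu = F.card + X.card + z → ∃ g : W → V, PC T G univ g ∧ NoSep G k (univ.image g) := by
  intro n
  induction n with
  | zero =>
    intro z F X hn hs _ _
    have := card_pos.2 hs.ne
    omega
  | succ n ih =>
    intro z F X hn hs hI hmu
    rcases hstep F X hI hs.ne hs.disj with ⟨x, hx, hxm, g, hg, hgx⟩ | ⟨hsmall, y, hy, hyI⟩
    · have hX : a + 1 ≤ X.card := by
        have h4 := deg_count hs.s2 hx
        have h5 := hdeg x
        omega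
      exact ⟨g, hg, hs.good_oneC hC0 hCs hka hmu hX hmin h0 hg hx hgx⟩
    · have hX : a + 2 ≤ X.card := by
        have h4 := deg_count hs.s2 hy
        have h5 := hdeg y
        have h6 := hsmall y hy
        omega
      obtain ⟨X', hX', z', hz', hs'⟩ := hs.step hka (by omega) (by omega) hy
      have hyF : y ∉ F := disjoint_left.1 hs.disj hy
      have hX'c := card_le_card hX'
      rw [card_erase_of_mem hy] at hX'c
      refine ih z' (insert y F) X' (by omega) hs' (hyI X' hX') ?_
      rw [card_insert_of_notMem hyF]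
      omega

end PairsC

section MainC
variable {W : Type} [Fintype W] [DecidableEq W] (T : SimpleGraph W) (C : Finset W → Prop)
variable {V : Type*} [Fintype V] [DecidableEq V] (G : SimpleGraph V) [DecidableRel G.Adj]

/-- Mader's conjecture for a tree `T` follows from an invariant `Inv` (which may depend on `G`)
of the deletion process which starts at every partial copy of the class `C` and embeds `T` -/
theorem mader_of_invC (hT : T.IsTree) {k : ℕ} (hk : 2 ≤ k) (hG : KConnected k G)
    (hd : 3 * k / 2 + Fintype.card W - 1 ≤ G.minDegree) (hC0 : C ∅)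
    (hCs : ∀ I, C I → I ≠ univ → ∃ w, w ∉ I ∧ C (insert w I))
    (Inv : Finset V → Finset V → Prop)
    (hI0 : ∀ (I : Finset W) (g : W → V) (X : Finset V), C I → I ≠ univ → PC T G I g →
      Disjoint X (I.image g) → Inv (I.image g) X)
    (hstep : ∀ F X, Inv F X → X.Nonempty → Disjoint X F →
      (∃ x ∈ X, (G.neighborFinset x ∩ F).card + 1 ≤ Fintype.card W ∧
        ∃ g : W → V, PC T G univ g ∧ ∀ w, g w ∈ insert x F) ∨
      ((∀ x ∈ X, (G.neighborFinset x ∩ F).card + 2 ≤ Fintype.card W) ∧
        ∃ y ∈ X, ∀ X' ⊆ X.erase y, Inv (insert y F) X')) :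
    ∃ φ : W ↪ V, (∀ u v, T.Adj u v → G.Adj (φ u) (φ v)) ∧
      KConnected k (G.induce (Set.range φ)ᶜ) := by
  classical
  have hW : 0 < Fintype.card W := by
    have := hT.1.nonempty
    exact Fintype.card_pos
  have hneV : Nonempty V := by
    have h1 := hG.1
    rw [Nat.card_eq_fintype_card] at h1
    exact Fintype.card_pos_iff.1 (by omega)
  have hdv : ∀ v, k + k / 2 + Fintype.card W ≤ G.degree v + 1 := by
    intro v
    have := G.minDegree_le_degree v
    omega
  have hno := noSep_empty G hG
  -- it is enough to find a copy without separations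
  suffices hsuff : ∃ g : W → V, PC T G univ g ∧ NoSep G k (univ.image g) by
    obtain ⟨g, hg, hgs⟩ := hsuff
    refine ⟨⟨g, fun a b => hg.inj a (mem_univ _) b (mem_univ _)⟩,
      fun u v huv => hg.adj u (mem_univ _) v (mem_univ _) huv, ?_⟩
    have h1 := kconn_of_noSep G (k := k) (T := univ.image g) ?_ hgs
    · have h2 : ((univ.image g : Finset V) : Set V) = Set.range g := by simp
      rw [h2] at h1
      exact h1
    · obtain ⟨v⟩ := hneV
      have h3 := hdv v
      have h4 := G.degree_lt_card_verts v
      have h5 : (univ.image g).card ≤ Fintype.card W := by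
        simpa using (card_image_le : ((univ : Finset W).image g).card ≤ _)
      omega
  by_cases hpair : ∃ p : Finset V × Finset V, PairC T C G k p.1 p.2
  · obtain ⟨⟨Q, X⟩, hp, hpmin⟩ : ∃ p : Finset V × Finset V, PairC T C G k p.1 p.2 ∧
        ∀ q : Finset V × Finset V, PairC T C G k q.1 q.2 →
          p.1.card + p.2.card ≤ q.1.card + q.2.card := by
      obtain ⟨p, hp, hmin⟩ := exists_min_image
        ((univ : Finset (Finset V × Finset V)).filter fun p => PairC T C G k p.1 p.2)
        (fun p => p.1.card + p.2.card) (by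
          obtain ⟨p, hp⟩ := hpair
          exact ⟨p, by simpa using hp⟩)
      simp only [mem_filter, mem_univ, true_and] at hp hmin
      exact ⟨p, hp, fun q hq => hmin q hq⟩
    simp only at hp hpmin
    have hmin : ∀ Q' X', PairC T C G k Q' X' → Q.card + X.card ≤ Q'.card + X'.card :=
      fun Q' X' h => hpmin (Q', X') h
    have hst := hp.st hmin
    obtain ⟨I, g, hCI, hI, hPC, rfl, hQno⟩ := hp.inQ
    exact descentC (a := k / 2) (m := Fintype.card W) (mu := (I.image g).card + X.card)
      (by omega) (by omega) hC0 hCs hmin hno hdv Inv hstep X.card 0 (I.image g) X le_rfl hst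
      (hI0 I g X hCI hI hPC hp.disj) (by omega)
  · obtain ⟨g, hg⟩ := exists_copy T G hT hneV (fun v => by have := hdv v; omega)
    refine ⟨g, hg, ?_⟩
    by_contra hbad
    push Not at hpair
    have hmin : ∀ Q' X', PairC T C G k Q' X' → Fintype.card V + 1 ≤ Q'.card + X'.card :=
      fun Q' X' h => absurd h (hpair (Q', X'))
    obtain ⟨Z, N, Z', hsp, -, hZ, -⟩ := bad_splitC hC0 hCs hmin hno hg hbad
    have h3 : (Z ∪ univ.image g).card ≤ Fintype.card V := card_le_univ _
    rw [card_union_of_disjoint hsp.dZF] at h3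
    omega

end MainC

end Pool.Agent.Lib_MP_f6e057_co.GL
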