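import Pool.Agent.Lib_MP_f6e057_co.GL.Pairs

/-!
# Mader's conjecture for stars
-/

set_option autoImplicit false
set_option linter.unusedSectionVars false

namespace Pool.Agent.Lib_MP_f6e057_co.GL

open Finset

/-- a star embeds at any vertex with enough neighbours -/
theorem star_embed {W : Type*} [Fintype W] [DecidableEq W] (T : SimpleGraph W) (c : W)
    (hc : ∀ a b, T.Adj a b → a = c ∨ b = c)
    {V : Type*} [Fintype V] [DecidableEq V] (G : SimpleGraph V) [DecidableRel G.Adj]
    (F : Finset V) (x : V) (hx : Fintype.card W ≤ (G.neighborFinset x ∩ F).card + 1) :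
    ∃ g : W → V, PC T G univ g ∧ ∀ w, g w ∈ insert x F := by
  classical
  have hcard : Fintype.card {w : W // w ≠ c} ≤ Fintype.card (G.neighborFinset x ∩ F : Finset V) := by
    have h1 : Fintype.card {w : W // w ≠ c} = Fintype.card W - 1 := by
      rw [Fintype.card_subtype_compl, Fintype.card_subtype_eq]
    rw [h1, Fintype.card_coe]
    omega
  obtain ⟨f⟩ := Function.Embedding.nonempty_of_card_le hcard
  let g : W → V := fun w => if h : w = c then x else (f ⟨w, h⟩ : V)
  have hgc : g c = x := by simp [g]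
  have hgn : ∀ w (h : w ≠ c), g w = (f ⟨w, h⟩ : V) := fun w h => by simp [g, h]
  have hmem : ∀ w, w ≠ c → G.Adj x (g w) ∧ g w ∈ F := by
    intro w h
    have := (f ⟨w, h⟩).2
    rw [mem_inter, SimpleGraph.mem_neighborFinset] at this
    rw [hgn w h]
    exact this
  refine ⟨g, ⟨?_, ?_⟩, ?_⟩
  · intro a _ b _ hab
    by_cases ha : a = c <;> by_cases hb : b = c
    · rw [ha, hb]
    · exfalso
      rw [ha, hgc] at hab
      exact (hmem b hb).1.ne hab
    · exfalso
      rw [hb, hgc] at hab
      exact (hmem a ha).1.ne hab.symm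
    · rw [hgn a ha, hgn b hb] at hab
      have h1 := f.injective (Subtype.ext hab)
      exact congrArg Subtype.val h1
  · intro a _ b _ hab
    rcases hc a b hab with h | h
    · subst h
      rw [hgc]
      exact (hmem b hab.ne').1
    · subst h
      rw [hgc]
      exact (hmem a hab.ne).1.symm
  · intro w
    by_cases h : w = c
    · rw [h, hgc]; exact mem_insert_self _ _
    · exact mem_insert_of_mem (hmem w h).2

theorem mader_star {V W : Type} [Fintype V] [Fintype W] (G : SimpleGraph V) [DecidableRel G.Adj]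
    (T : SimpleGraph W) (hT : T.IsTree) (c : W) (hc : ∀ a b, T.Adj a b → a = c ∨ b = c)
    (k : ℕ) (hk : 2 ≤ k) (hG : KConnected k G)
    (hd : 3 * k / 2 + Fintype.card W - 1 ≤ G.minDegree) :
    ∃ φ : W ↪ V, (∀ u v, T.Adj u v → G.Adj (φ u) (φ v)) ∧
      KConnected k (G.induce (Set.range φ)ᶜ) := by
  classical
  refine mader_of_inv T G hT hk hG hd (fun _ _ => True) (fun _ _ _ _ _ _ => trivial) ?_ ?_
  · intro F X _ hX
    obtain ⟨y, hy⟩ := hX
    exact ⟨y, hy, fun _ _ => trivial⟩
  · intro F X _ x _ hx
    exact star_embed T c hc G F x hx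

end Pool.Agent.Lib_MP_f6e057_co.GL
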